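import Pool.Agent.U724B.Defs
import Pool.Agent.H914R2.KLef

/-!
# The local-global principle for the Lefschetz standard conjecture
-/

open CategoryTheory AlgebraicGeometry

universe u v w

namespace Pool.Agent.U724B

open Pool.Agent.H914 VarClass Obj WeilCohomology

variable {k : Type u} [Field k] {𝒱 : VarClass k} {ops : CycleOps 𝒱}
  {W : WeilCohomology.{u, v} ops} {X : 𝒱.Obj} {D : X.Cycles}

/-- the operator of multiplication by the `c`-th power of the class -/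
noncomputable def Lc (W : WeilCohomology.{u, v} ops) (X : 𝒱.Obj) (D : X.Cycles) (c : ℕ) :
    Module.End W.K (W.H X) := LinearMap.mulLeft W.K (W.cl X D ^ c)

lemma Lc_eq (c : ℕ) : Lc W X D c = (LinearMap.mulLeft W.K (W.cl X D)) ^ c := by
  rw [Lc, LinearMap.pow_mulLeft]

lemma Lc_apply (c : ℕ) (x : W.H X) : Lc W X D c x = W.cl X D ^ c * x := rfl

lemma Lc_mem (hD : X.IsCyc 1 D) (c : ℕ) : Lc W X D c ∈ KOp W X X c := by
  have h : ROp W X c (Lc W X D c) := by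
    refine ⟨_, ((Realized.mulLeft (ops := ops) hD).pow c).cast ?_, ?_⟩
    · simp
    · rw [Lc_eq]
  exact mem_KS_iff.1 (Submodule.subset_span h)

/-- the operators `ξ ^ c u` -/
noncomputable def lefOps (W : WeilCohomology.{u, v} ops) (X : 𝒱.Obj) (D : X.Cycles) (c : ℕ) :
    Submodule W.K (Module.End W.K (W.H X)) :=
  (KOp W X X (-c)).map (LinearMap.mulLeft W.K (Lc W X D c))

lemma mem_lefOps {c : ℕ} {a : Module.End W.K (W.H X)} :
    a ∈ lefOps W X D c ↔ ∃ u ∈ KOp W X X (-c), Lc W X D c * u = a := by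
  simp only [lefOps, Submodule.mem_map, LinearMap.mulLeft_apply]

lemma lefOps_mul (hD : X.IsCyc 1 D) {c : ℕ} : ∀ a ∈ lefOps W X D c, ∀ b ∈ lefOps W X D c,
    a * b ∈ lefOps W X D c := by
  intro a ha b hb
  obtain ⟨u, hu, rfl⟩ := mem_lefOps.1 ha
  obtain ⟨u', hu', rfl⟩ := mem_lefOps.1 hb
  refine mem_lefOps.2 ⟨u * (Lc W X D c * u'), ?_, by rw [mul_assoc]⟩
  have h1 : Lc W X D c ∘ₗ u' ∈ KOp W X X (-c + c) := KOp.comp (Lc_mem hD c) hu'
  have h2 : u ∘ₗ (Lc W X D c ∘ₗ u') ∈ KOp W X X ((-c + c) + -c) := KOp.comp hu h1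
  exact KOp.cast h2 (by ring)

lemma lefOps_stab {c : ℕ} (hD : X.IsCyc 1 D) :
    StabOp (lefOps W X D c) (W.gr X (X.dim + c)) := by
  intro a ha x hx
  obtain ⟨u, hu, rfl⟩ := mem_lefOps.1 ha
  have h1 := KOp.isHom hu ((X.dim + c : ℕ) : ℤ) x (by rw [grZ_natCast]; exact hx)
  have h2 := KOp.isHom (Lc_mem (W := W) hD c) _ _ h1
  have e : (((X.dim + c : ℕ) : ℤ) + 2 * (-c) + 2 * c) = ((X.dim + c : ℕ) : ℤ) := by ring
  rw [e, grZ_natCast] at h2
  exact h2

lemma lower_mem {c : ℕ} (hc : c ≤ X.dim) {u : Module.End W.K (W.H X)}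
    (hu : u ∈ KOp W X X (-c)) {x : W.H X} (hx : x ∈ W.gr X (X.dim + c)) :
    u x ∈ W.gr X (X.dim - c) := by
  have h1 := KOp.isHom hu ((X.dim + c : ℕ) : ℤ) x (by rw [grZ_natCast]; exact hx)
  have e : (((X.dim + c : ℕ) : ℤ) + 2 * (-c)) = ((X.dim - c : ℕ) : ℤ) := by omega
  rwa [e, grZ_natCast] at h1

section Gp

variable {Γ : Type w} [Group Γ] {ρ : Γ →* (W.H X ≃ₗ[W.K] W.H X)}

lemma KOp_conj (hρ : IsCorrAction W X D ρ) {d : ℤ} (g : Γ) {u : Module.End W.K (W.H X)}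
    (hu : u ∈ KOp W X X d) :
    (ρ g).toLinearMap ∘ₗ u ∘ₗ (ρ g⁻¹).toLinearMap ∈ KOp W X X d := by
  induction hu using Submodule.span_induction with
  | mem x hx =>
    obtain ⟨p, hp, z, hz, rfl⟩ := hx
    exact KOp.cast (hρ.corr_mem g p z hz) (by omega)
  | zero => rw [LinearMap.zero_comp, LinearMap.comp_zero]; exact Submodule.zero_mem _
  | add x y _ _ hx hy =>
    rw [LinearMap.add_comp, LinearMap.comp_add]; exact Submodule.add_mem _ hx hy
  | smul c x _ hx =>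
    rw [LinearMap.smul_comp, LinearMap.comp_smul]; exact Submodule.smul_mem _ _ hx

lemma lef_pow (hρ : IsCorrAction W X D ρ) (g : Γ) (c : ℕ) :
    ∃ s : W.K, ∀ x, ρ g (W.cl X D ^ c * x) = s • (W.cl X D ^ c * ρ g x) := by
  obtain ⟨s, hs⟩ := hρ.lef g
  refine ⟨s ^ c, ?_⟩
  induction c with
  | zero => intro x; rw [pow_zero, one_mul, pow_zero, one_smul, one_mul]
  | succ c ih =>
    intro x
    rw [pow_succ, mul_assoc, ih, hs, mul_smul_comm, smul_smul, pow_succ, mul_assoc]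

lemma lefOps_conj (hρ : IsCorrAction W X D ρ) {c : ℕ} (g : Γ) :
    ∀ a ∈ lefOps W X D c,
      (ρ g).toLinearMap ∘ₗ a ∘ₗ (ρ g⁻¹).toLinearMap ∈ lefOps W X D c := by
  intro a ha
  obtain ⟨u, hu, rfl⟩ := mem_lefOps.1 ha
  obtain ⟨s, hs⟩ := lef_pow hρ g c
  refine mem_lefOps.2 ⟨s • ((ρ g).toLinearMap ∘ₗ u ∘ₗ (ρ g⁻¹).toLinearMap),
    Submodule.smul_mem _ _ (KOp_conj hρ g hu), ?_⟩
  apply LinearMap.ext
  intro x
  change W.cl X D ^ c * (s • ρ g (u (ρ g⁻¹ x))) = ρ g (W.cl X D ^ c * u (ρ g⁻¹ x))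
  rw [hs, mul_smul_comm]

end Gp

lemma opSpan_lefOps (c : ℕ) (U : Submodule W.K (W.H X)) :
    opSpan (lefOps W X D c) U = lefSpan W X D c U := by
  rw [opSpan, lefSpan]
  congr 1
  ext y
  constructor
  · rintro ⟨a, ha, x, hx, rfl⟩
    obtain ⟨u, hu, rfl⟩ := mem_lefOps.1 ha
    exact ⟨u, hu, x, hx, rfl⟩
  · rintro ⟨u, hu, x, hx, rfl⟩
    exact ⟨_, mem_lefOps.2 ⟨u, hu, rfl⟩, x, hx, rfl⟩

lemma hasInverse_iff {c : ℕ} :
    HasInverse W X D c ↔ ∃ r ∈ lefOps W X D c, ∀ x ∈ W.gr X (X.dim + c), r x = x := by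
  constructor
  · rintro ⟨u, hu, h⟩
    exact ⟨_, mem_lefOps.2 ⟨u, hu, rfl⟩, h⟩
  · rintro ⟨r, hr, h⟩
    obtain ⟨u, hu, rfl⟩ := mem_lefOps.1 hr
    exact ⟨u, hu, h⟩

/-- **Local-global principle in one degree.** -/
theorem degree_tfae (hD : X.IsCyc 1 D) {c : ℕ} {Γ : Type w} [Group Γ]
    {ρ : Γ →* (W.H X ≃ₗ[W.K] W.H X)} (hρ : IsCorrAction W X D ρ)
    (hss : SemisimpleGp ρ (W.gr X (X.dim + c))) :
    List.TFAE [HasInverse W X D c, HasLocalInverses W X D c,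
      ∀ U ≤ W.gr X (X.dim + c), IrrGp ρ U → U ≤ lefSpan W X D c U] := by
  tfae_have 1 → 2 := fun ⟨u, hu, h⟩ x hx => ⟨u, hu, h x hx⟩
  tfae_have 2 → 1 := by
    intro h
    rw [hasInverse_iff]
    apply exists_unit_of_pw (lefOps_mul hD) (IsNoetherian.noetherian _) (lefOps_stab hD)
    intro x hx
    obtain ⟨u, hu, hux⟩ := h x hx
    exact ⟨_, mem_lefOps.2 ⟨u, hu, rfl⟩, hux⟩
  tfae_have 1 → 3 := by
    rintro ⟨u, hu, h⟩ U hU _ x hx
    exact Submodule.subset_span ⟨u, hu, x, hx, h x (hU hx)⟩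
  tfae_have 3 → 1 := by
    intro h
    rw [hasInverse_iff]
    refine local_global (lefOps_mul hD) (fun g => lefOps_conj hρ g) (lefOps_stab hD)
      (fun g x hx => hρ.gr_mem g _ x hx) hss (fun U hU hirr => ?_)
    rw [opSpan_lefOps]
    exact h U hU hirr
  tfae_finish

/-- The case of an irreducible action. -/
theorem irreducible_iff (hD : X.IsCyc 1 D) (hHL : HardLefschetz W X D) {c : ℕ} (hc : c ≤ X.dim)
    {Γ : Type w} [Group Γ] {ρ : Γ →* (W.H X ≃ₗ[W.K] W.H X)} (hρ : IsCorrAction W X D ρ)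
    (hirr : IrrGp ρ (W.gr X (X.dim + c))) :
    HasInverse W X D c ↔ ∃ z, (X.prod X).IsCyc (X.dim - c) z ∧
      ∃ x ∈ W.gr X (X.dim + c), W.corr (W.cl _ z) x ≠ 0 := by
  constructor
  · rintro ⟨u, hu, h⟩
    by_contra hno
    push Not at hno
    apply hirr.1
    have h0 : ∀ x ∈ W.gr X (X.dim + c), u x = 0 := by
      clear h
      induction hu using Submodule.span_induction with
      | mem y hy =>
        intro x hx
        obtain ⟨p, hp, z, hz, rfl⟩ := hy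
        obtain rfl : p = X.dim - c := by omega
        exact hno z hz x hx
      | zero => intro x _; rfl
      | add y y' _ _ hy hy' =>
        intro x hx
        rw [LinearMap.add_apply, hy x hx, hy' x hx, add_zero]
      | smul s y _ hy =>
        intro x hx
        rw [LinearMap.smul_apply, hy x hx, smul_zero]
    rw [eq_bot_iff]
    intro x hx
    have := h x hx
    rw [h0 x hx, mul_zero] at this
    rw [Submodule.mem_bot, this]
  · rintro ⟨z, hz, x, hx, hne⟩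
    rw [hasInverse_iff]
    have hu : W.corr (W.cl _ z) ∈ KOp W X X (-c) := KOp.gen (p := X.dim - c) (by omega) hz
    refine irreducible_case (lefOps_mul hD) (fun g => lefOps_conj hρ g) (lefOps_stab hD)
      hirr ⟨_, mem_lefOps.2 ⟨_, hu, rfl⟩, x, hx, fun h0 => hne ?_⟩
    have h1 := lower_mem hc hu hx
    refine (hHL (X.dim - c) (by omega)).1 _ h1 ?_
    rw [show X.dim - (X.dim - c) = c by omega, ← Lc_eq]
    exact h0

/-- The Lefschetz standard conjecture in terms of the inverses in the single degrees. -/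
theorem lefschetzB_iff (hD : X.IsCyc 1 D) (hHL : HardLefschetz W X D) :
    LefschetzB W X D ↔ ∀ c ≤ X.dim, HasInverse W X D c := by
  constructor
  · intro hB c hc
    obtain ⟨Φ, hΦ, hLam⟩ := lefschetzB_iff_rop.1 hB
    have hΦ' : Φ ∈ KOp W X X (-1) := mem_KS_iff.1 (Submodule.subset_span hΦ)
    have hLh : IsHom (W.gr X) 2 (LinearMap.mulLeft W.K (W.cl X D)) := by
      simpa using rop_opAlg.hom (rop_mulLeft (W := W) hD)
    refine ⟨Φ ^ c, ?_, ?_⟩
    · rw [← mem_KS_iff] at hΦ' ⊢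
      exact rop_opAlg.kspan.cast (rop_opAlg.kspan.pow hΦ' c) (by ring)
    · intro a ha
      obtain ⟨b, hb, hb'⟩ := (hHL (X.dim - c) (by omega)).2 a
        (by rw [show 2 * X.dim - (X.dim - c) = X.dim + c by omega]; exact ha)
      rw [show X.dim - (X.dim - c) = c by omega] at hb'
      rw [← hb', lam_pow_L_pow hLh W_hbd hHL hLam hc hb, ← Lc_apply, Lc_eq]
  · intro h
    apply lefschetzB_of_inj hD hHL
    intro c hc
    obtain ⟨u, hu, hux⟩ := h c hc
    refine ⟨u, hu, fun a ha h0 => ?_⟩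
    rw [← hux a ha, h0, mul_zero]

end Pool.Agent.U724B
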