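import Pool.Agent.U724B.ExDefs
import Pool.Agent.U724B.Main
import Pool.Agent.H914R2.LefB

/-!
# Semistability of the cohomology over the algebraic correspondences
-/

open CategoryTheory AlgebraicGeometry Module

universe u v w

namespace Pool.Agent.U724B

open Pool.Agent.H914 VarClass Obj WeilCohomology

variable {k : Type u} [Field k] {𝒱 : VarClass k} {ops : CycleOps 𝒱}
  {W : WeilCohomology.{u, v} ops} {X : 𝒱.Obj} {D : X.Cycles}
  {M M' : ℕ → Submodule W.K (W.H X)}

lemma IsCorrStable.hom (hM : IsCorrStable W X M) {d : ℤ} {u : Module.End W.K (W.H X)}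
    (hu : u ∈ KOp W X X d) {i : ℤ} {x : W.H X} (hx : x ∈ grZ M i) : u x ∈ grZ M (i + 2 * d) := by
  by_cases hi : 0 ≤ i
  · lift i to ℕ using hi
    rw [grZ_natCast] at hx
    by_cases hj : 0 ≤ (i : ℤ) + 2 * d
    · obtain ⟨j, hj'⟩ := Int.eq_ofNat_of_zero_le hj
      rw [hj', grZ_natCast]
      have : KOp W X X d ≤ (M j).comap (LinearMap.applyₗ x) := by
        rw [KOp, Submodule.span_le]
        rintro _ ⟨p, hp, z, hz, rfl⟩
        exact hM.corr_mem hz (by omega) x hx
      exact this hu
    · have h1 := KOp.isHom hu i x (by rw [grZ_natCast]; exact hM.le i hx)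
      rw [grZ_of_neg (by omega)] at h1 ⊢
      exact h1
  · rw [grZ_of_neg (by omega)] at hx
    rw [(Submodule.mem_bot _).1 hx, map_zero]
    exact Submodule.zero_mem _

lemma IsCorrStable.mem (hM : IsCorrStable W X M) {d : ℤ} {u : Module.End W.K (W.H X)}
    (hu : u ∈ KOp W X X d) {i j : ℕ} (hij : (j : ℤ) = i + 2 * d) {x : W.H X} (hx : x ∈ M i) :
    u x ∈ M j := by
  have := hM.hom hu (i := i) (by rw [grZ_natCast]; exact hx)
  rwa [← hij, grZ_natCast] at this

lemma isCorrStable_bot : IsCorrStable W X ⊥ where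
  le _ := bot_le
  corr_mem _ _ x hx := by
    rw [(Submodule.mem_bot _).1 hx, map_zero]
    exact Submodule.zero_mem _

lemma isCorrStable_gr : IsCorrStable W X (W.gr X) where
  le _ := le_rfl
  corr_mem {p i j z} hz hij x hx := by
    have hu : W.corr (W.cl _ z) ∈ KOp W X X ((p : ℤ) - X.dim) :=
      KOp.gen (p := p) (by omega) hz
    have h1 := KOp.isHom hu i x (by rw [grZ_natCast]; exact hx)
    rw [show (i : ℤ) + 2 * ((p : ℤ) - X.dim) = j by omega, grZ_natCast] at h1
    exact h1

lemma IsCorrStable.inf (hM : IsCorrStable W X M) (hM' : IsCorrStable W X M') :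
    IsCorrStable W X (M ⊓ M') where
  le i := le_trans inf_le_left (hM.le i)
  corr_mem hz hij x hx := ⟨hM.corr_mem hz hij x hx.1, hM'.corr_mem hz hij x hx.2⟩

lemma IsCorrStable.sup (hM : IsCorrStable W X M) (hM' : IsCorrStable W X M') :
    IsCorrStable W X (M ⊔ M') where
  le i := sup_le (hM.le i) (hM'.le i)
  corr_mem hz hij x hx := by
    obtain ⟨y, hy, y', hy', rfl⟩ := Submodule.mem_sup.1 hx
    rw [map_add]
    exact Submodule.add_mem_sup (hM.corr_mem hz hij y hy) (hM'.corr_mem hz hij y' hy')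

lemma IsCorrStable.eq_bot (hM : IsCorrStable W X M) {i : ℕ} (hi : 2 * X.dim < i) : M i = ⊥ :=
  eq_bot_iff.2 (by rw [← W.gr_eq_bot X i hi]; exact hM.le i)

lemma restrict_injective {U U' : Submodule W.K (W.H X)} {f : Module.End W.K (W.H X)}
    (hf : ∀ x ∈ U, f x ∈ U') (h0 : ∀ x ∈ U, f x = 0 → x = 0) :
    finrank W.K U ≤ finrank W.K U' := by
  refine LinearMap.finrank_le_finrank_of_injective (f := f.restrict hf) ?_
  rw [injective_iff_map_eq_zero]
  rintro ⟨x, hx⟩ h
  have : f x = 0 := congrArg Subtype.val h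
  exact Subtype.ext (h0 x hx this)

lemma IsCorrStable.Lc_mem (hD : X.IsCyc 1 D) (hM : IsCorrStable W X M) {i : ℕ} (hi : i ≤ X.dim)
    {x : W.H X} (hx : x ∈ M i) : Lc W X D (X.dim - i) x ∈ M (2 * X.dim - i) :=
  hM.mem (U724B.Lc_mem hD _) (by omega) hx

lemma Lc_inj (hHL : HardLefschetz W X D) {i : ℕ} (hi : i ≤ X.dim) {x : W.H X}
    (hx : x ∈ W.gr X i) (h : Lc W X D (X.dim - i) x = 0) : x = 0 := by
  refine (hHL i hi).1 x hx ?_
  rw [← Lc_eq]
  exact h

lemma IsCorrStable.finrank_le (hD : X.IsCyc 1 D) (hHL : HardLefschetz W X D)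
    (hM : IsCorrStable W X M) {i : ℕ} (hi : i ≤ X.dim) :
    finrank W.K (M i) ≤ finrank W.K (M (2 * X.dim - i)) :=
  restrict_injective (f := Lc W X D (X.dim - i)) (fun _ hx => hM.Lc_mem hD hi hx)
    (fun _ hx h => Lc_inj hHL hi (hM.le i hx) h)

lemma IsCorrStable.excess_nonneg (hD : X.IsCyc 1 D) (hHL : HardLefschetz W X D)
    (hM : IsCorrStable W X M) : 0 ≤ excess W X M :=
  exc_nonneg (fun _ hi => hM.finrank_le hD hHL hi)

/-! ### The orthogonal complement -/

/-- the orthogonal complement -/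
noncomputable def perp (M : ℕ → Submodule W.K (W.H X)) : ℕ → Submodule W.K (W.H X) := fun i =>
  { carrier := {x | x ∈ W.gr X i ∧ ∀ j, ∀ y ∈ M j, W.tr X (x * y) = 0}
    add_mem' := fun {a b} ha hb => ⟨Submodule.add_mem _ ha.1 hb.1, fun j y hy => by
      rw [add_mul, map_add, ha.2 j y hy, hb.2 j y hy, add_zero]⟩
    zero_mem' := ⟨Submodule.zero_mem _, fun j y _ => by rw [zero_mul, map_zero]⟩
    smul_mem' := fun c x hx => ⟨Submodule.smul_mem _ _ hx.1, fun j y hy => by
      rw [smul_mul_assoc, map_smul, hx.2 j y hy, smul_zero]⟩ }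

lemma mem_perp {i : ℕ} {x : W.H X} :
    x ∈ perp M i ↔ x ∈ W.gr X i ∧ ∀ j, ∀ y ∈ M j, W.tr X (x * y) = 0 := Iff.rfl

lemma IsCorrStable.perp (hM : IsCorrStable W X M) : IsCorrStable W X (perp M) where
  le _ _ hx := hx.1
  corr_mem {p i j z} hz hij x hx := by
    refine ⟨isCorrStable_gr.corr_mem hz hij x hx.1, fun l y hy => ?_⟩
    have hu : W.corr (W.cl _ z) ∈ KOp W X X ((p : ℤ) - X.dim) :=
      KOp.gen (p := p) (by omega) hz
    obtain ⟨ψ, hψ, had⟩ := KOp.exists_adjoint hu
    rw [had]
    have h1 := hM.hom hψ (i := l) (by rw [grZ_natCast]; exact hy)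
    by_cases hl : 0 ≤ (l : ℤ) + 2 * ((p : ℤ) - X.dim + X.dim - X.dim)
    · obtain ⟨m, hm⟩ := Int.eq_ofNat_of_zero_le hl
      rw [hm, grZ_natCast] at h1
      exact hx.2 m _ h1
    · rw [grZ_of_neg (by omega)] at h1
      rw [(Submodule.mem_bot _).1 h1, mul_zero, map_zero]

lemma tr_gr_left {i : ℕ} (hi : i ≤ 2 * X.dim) {x : W.H X} (hx : x ∈ W.gr X i)
    (h : ∀ y ∈ W.gr X (2 * X.dim - i), W.tr X (x * y) = 0) : x = 0 := by
  apply W.nondeg
  intro b
  refine gr_induction (W.isInternal X) (p := fun b => W.tr X (x * b) = 0) ?_ ?_ b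
  · intro j y hy
    by_cases hj : j = 2 * X.dim - i
    · subst hj; exact h y hy
    · exact W.tr_eq_zero (W.mul_mem hx hy) (by omega)
  · intro a b ha hb
    rw [mul_add, map_add, ha, hb, add_zero]

/-- the pairing of complementary degrees -/
noncomputable def pairing (W : WeilCohomology.{u, v} ops) (X : 𝒱.Obj) (i : ℕ) :
    W.gr X i →ₗ[W.K] Dual W.K (W.gr X (2 * X.dim - i)) :=
  ((LinearMap.mul W.K (W.H X)).compr₂ (W.tr X)).domRestrict₁₂ _ _

lemma pairing_apply {i : ℕ} (x : W.gr X i) (y : W.gr X (2 * X.dim - i)) :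
    pairing W X i x y = W.tr X (x.1 * y.1) := rfl

lemma pairing_injective {i : ℕ} (hi : i ≤ 2 * X.dim) : Function.Injective (pairing W X i) := by
  rw [injective_iff_map_eq_zero]
  rintro ⟨x, hx⟩ h
  refine Subtype.ext (tr_gr_left hi hx (fun y hy => ?_))
  exact congrArg (fun F => F ⟨y, hy⟩) h

lemma finrank_gr {i : ℕ} (hi : i ≤ 2 * X.dim) :
    finrank W.K (W.gr X i) = finrank W.K (W.gr X (2 * X.dim - i)) := by
  have h1 : ∀ i, i ≤ 2 * X.dim →
      finrank W.K (W.gr X i) ≤ finrank W.K (W.gr X (2 * X.dim - i)) := by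
    intro i hi
    have := LinearMap.finrank_le_finrank_of_injective (pairing_injective (W := W) hi)
    rwa [Subspace.dual_finrank_eq] at this
  apply le_antisymm (h1 i hi)
  have := h1 (2 * X.dim - i) (by omega)
  rwa [show 2 * X.dim - (2 * X.dim - i) = i by omega] at this

lemma finrank_perp (hM : IsCorrStable W X M) {i : ℕ} (hi : i ≤ 2 * X.dim) :
    finrank W.K (perp M i) + finrank W.K (M (2 * X.dim - i)) = finrank W.K (W.gr X i) := by
  set e : W.gr X i ≃ₗ[W.K] Dual W.K (W.gr X (2 * X.dim - i)) :=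
    LinearEquiv.ofInjectiveOfFinrankEq (pairing W X i) (pairing_injective hi)
      (by rw [Subspace.dual_finrank_eq, finrank_gr hi]) with he
  set T : Submodule W.K (W.gr X (2 * X.dim - i)) :=
    (M (2 * X.dim - i)).comap (W.gr X (2 * X.dim - i)).subtype with hT
  have hTf : finrank W.K T = finrank W.K (M (2 * X.dim - i)) :=
    (Submodule.comapSubtypeEquivOfLe (hM.le _)).finrank_eq
  have h1 : perp M i = (T.dualAnnihilator.comap e.toLinearMap).map (W.gr X i).subtype := by
    ext x
    rw [mem_perp, Submodule.mem_map]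
    constructor
    · rintro ⟨hx, h⟩
      refine ⟨⟨x, hx⟩, ?_, rfl⟩
      rw [Submodule.mem_comap, Submodule.mem_dualAnnihilator]
      rintro ⟨y, hy⟩ hyT
      exact h _ y hyT
    · rintro ⟨⟨x', hx'⟩, h, rfl⟩
      rw [Submodule.mem_comap, Submodule.mem_dualAnnihilator] at h
      refine ⟨hx', fun j y hy => ?_⟩
      by_cases hj : j = 2 * X.dim - i
      · subst hj
        exact h ⟨y, hM.le _ hy⟩ hy
      · exact W.tr_eq_zero (W.mul_mem hx' (hM.le _ hy)) (by omega)
  rw [h1, Submodule.finrank_map_subtype_eq, ← hTf, finrank_gr hi,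
    ← Subspace.finrank_add_finrank_dualAnnihilator_eq T, add_comm]
  congr 1
  have h2 : T.dualAnnihilator.comap e.toLinearMap =
      T.dualAnnihilator.map e.symm.toLinearMap := by
    rw [Submodule.map_equiv_eq_comap_symm, LinearEquiv.symm_symm]
  rw [h2]
  exact LinearEquiv.finrank_map_eq e.symm _

lemma excess_perp (hM : IsCorrStable W X M) : excess W X (perp M) = excess W X M := by
  have h1 : ∀ i ∈ Finset.range (2 * X.dim + 1),
      ((i : ℤ) - X.dim) * (finrank W.K (perp M i) : ℤ) =
      ((i : ℤ) - X.dim) * (finrank W.K (W.gr X i) : ℤ) -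
        ((i : ℤ) - X.dim) * (finrank W.K (M (2 * X.dim - i)) : ℤ) := by
    intro i hi
    rw [Finset.mem_range] at hi
    have := finrank_perp hM (i := i) (by omega)
    rw [← mul_sub]
    congr 1
    omega
  have h2 : exc X.dim (W.gr X) = 0 := by
    have := exc_two X.dim (W.gr X)
    rw [Finset.sum_eq_zero] at this
    · omega
    · intro i hi
      rw [Finset.mem_range] at hi
      rw [finrank_gr (W := W) (X := X) (i := i) (by omega), sub_self, mul_zero]
  have h3 : ∑ i ∈ Finset.range (2 * X.dim + 1),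
      ((i : ℤ) - X.dim) * (finrank W.K (M (2 * X.dim - i)) : ℤ) = - exc X.dim M := by
    rw [exc, ← reflect, ← Finset.sum_neg_distrib]
    apply Finset.sum_congr rfl
    intro i hi
    rw [Finset.mem_range] at hi
    have : ((2 * X.dim - i : ℕ) : ℤ) = 2 * X.dim - i := by omega
    rw [this, show 2 * X.dim - (2 * X.dim - i) = i by omega]; ring
  rw [excess, excess, exc, Finset.sum_congr rfl h1, Finset.sum_sub_distrib, h3]
  rw [exc] at h2
  rw [h2]; ring

/-! ### The graded subspace generated by one class -/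

/-- the graded subspace generated by the class `x` of degree `m` -/
noncomputable def cyc (W : WeilCohomology.{u, v} ops) (X : 𝒱.Obj) (m : ℕ) (x : W.H X) :
    ℕ → Submodule W.K (W.H X) := fun j =>
  Submodule.span W.K {y | ∃ d : ℤ, (j : ℤ) = m + 2 * d ∧ ∃ u ∈ KOp W X X d, u x = y}

lemma mem_cyc {m j : ℕ} {x y : W.H X} {d : ℤ} (hd : (j : ℤ) = m + 2 * d) :
    y ∈ cyc W X m x j ↔ ∃ u ∈ KOp W X X d, u x = y := by
  constructor
  · intro h
    induction h using Submodule.span_induction with
    | mem y hy =>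
      obtain ⟨d', hd', u, hu, rfl⟩ := hy
      obtain rfl : d' = d := by omega
      exact ⟨u, hu, rfl⟩
    | zero => exact ⟨0, Submodule.zero_mem _, rfl⟩
    | add y y' _ _ hy hy' =>
      obtain ⟨u, hu, rfl⟩ := hy
      obtain ⟨u', hu', rfl⟩ := hy'
      exact ⟨u + u', Submodule.add_mem _ hu hu', rfl⟩
    | smul s y _ hy =>
      obtain ⟨u, hu, rfl⟩ := hy
      exact ⟨s • u, Submodule.smul_mem _ _ hu, rfl⟩
  · rintro ⟨u, hu, rfl⟩
    exact Submodule.subset_span ⟨d, hd, u, hu, rfl⟩

lemma isCorrStable_cyc {m : ℕ} {x : W.H X} (hx : x ∈ W.gr X m) :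
    IsCorrStable W X (cyc W X m x) where
  le j := by
    rw [cyc, Submodule.span_le]
    rintro _ ⟨d, hd, u, hu, rfl⟩
    have h1 := KOp.isHom hu m x (by rw [grZ_natCast]; exact hx)
    rwa [← hd, grZ_natCast] at h1
  corr_mem {p i j z} hz hij y hy := by
    have hu : W.corr (W.cl _ z) ∈ KOp W X X ((p : ℤ) - X.dim) :=
      KOp.gen (p := p) (by omega) hz
    induction hy using Submodule.span_induction with
    | mem y hy =>
      obtain ⟨d, hd, u, hu', rfl⟩ := hy
      exact Submodule.subset_span ⟨d + ((p : ℤ) - X.dim), by omega, _,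
        KOp.comp hu hu', rfl⟩
    | zero => rw [map_zero]; exact Submodule.zero_mem _
    | add y y' _ _ hy hy' => rw [map_add]; exact Submodule.add_mem _ hy hy'
    | smul s y _ hy => rw [map_smul]; exact Submodule.smul_mem _ _ hy

/-! ### Semistability -/

lemma hasInverse_of_local (hD : X.IsCyc 1 D) {c : ℕ} (h : HasLocalInverses W X D c) :
    HasInverse W X D c := by
  rw [hasInverse_iff]
  apply exists_unit_of_pw (lefOps_mul hD) (IsNoetherian.noetherian _) (lefOps_stab hD)
  intro x hx
  obtain ⟨u, hu, hux⟩ := h x hx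
  exact ⟨_, mem_lefOps.2 ⟨u, hu, rfl⟩, hux⟩

lemma hasInverse_of_finrank (hD : X.IsCyc 1 D) (hHL : HardLefschetz W X D) {c : ℕ}
    (hc : c ≤ X.dim)
    (h : ∀ M, IsCorrStable W X M → finrank W.K (M (X.dim - c)) = finrank W.K (M (X.dim + c))) :
    HasInverse W X D c := by
  apply hasInverse_of_local hD
  intro x hx
  have hM := isCorrStable_cyc hx
  have hd := h _ hM
  set M := cyc W X (X.dim + c) x with hMdef
  have hf : ∀ y ∈ M (X.dim - c), Lc W X D c y ∈ M (X.dim + c) :=
    fun y hy => hM.mem (U724B.Lc_mem hD c) (by omega) hy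
  have hinj : Function.Injective ((Lc W X D c).restrict hf) := by
    rw [injective_iff_map_eq_zero]
    rintro ⟨y, hy⟩ h0
    refine Subtype.ext (Lc_inj hHL (i := X.dim - c) (by omega) (hM.le _ hy) ?_)
    rw [show X.dim - (X.dim - c) = c by omega]
    exact congrArg Subtype.val h0
  have hx' : x ∈ M (X.dim + c) := by
    rw [hMdef, mem_cyc (d := 0) (by omega)]
    exact ⟨_, KOp.id X, rfl⟩
  obtain ⟨⟨y, hy⟩, hyx⟩ :=
    (LinearMap.injective_iff_surjective_of_finrank_eq_finrank hd).1 hinj ⟨x, hx'⟩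
  obtain ⟨u, hu, rfl⟩ := (mem_cyc (d := -c) (by omega)).1 hy
  exact ⟨u, hu, congrArg Subtype.val hyx⟩

lemma IsCorrStable.finrank_eq_of_hasInverse (hD : X.IsCyc 1 D) (hHL : HardLefschetz W X D)
    (hM : IsCorrStable W X M) {i : ℕ} (hi : i ≤ X.dim) (h : HasInverse W X D (X.dim - i)) :
    finrank W.K (M i) = finrank W.K (M (2 * X.dim - i)) := by
  apply le_antisymm (hM.finrank_le hD hHL hi)
  obtain ⟨u, hu, hux⟩ := h
  refine restrict_injective (f := u) (fun x hx => hM.mem hu (by omega) hx) (fun x hx h0 => ?_)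
  rw [← hux x ?_, h0, mul_zero]
  rw [show X.dim + (X.dim - i) = 2 * X.dim - i by omega]
  exact hM.le _ hx

/-- The conjecture holds if and only if all stable graded subspaces have symmetric dimensions. -/
theorem lefschetzB_iff_symm (hD : X.IsCyc 1 D) (hHL : HardLefschetz W X D) :
    LefschetzB W X D ↔ ∀ M, IsCorrStable W X M → excess W X M ≤ 0 := by
  rw [lefschetzB_iff hD hHL]
  constructor
  · intro h M hM
    rw [excess, exc_zero_iff (M := M) (fun i hi => hM.finrank_le hD hHL hi)]
    exact fun i hi => hM.finrank_eq_of_hasInverse hD hHL hi (h _ (by omega))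
  · intro h c hc
    apply hasInverse_of_finrank hD hHL hc
    intro M hM
    have := (exc_zero_iff (M := M) (fun i hi => hM.finrank_le hD hHL hi)).1 (h M hM) (X.dim - c)
      (by omega)
    rw [this, show 2 * X.dim - (X.dim - c) = X.dim + c by omega]

/-- The stable graded subspace which destabilises. -/
theorem exists_destab (hD : X.IsCyc 1 D) (hHL : HardLefschetz W X D) :
    ∃ N, IsCorrStable W X N ∧ (∀ M, IsCorrStable W X M → excess W X M ≤ excess W X N) ∧
      (∀ M, IsCorrStable W X M → excess W X N ≤ excess W X M → N ≤ M) ∧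
      IsIsotropic W X N ∧ 0 ≤ excess W X N := by
  obtain ⟨N, hN, hmax, hmin⟩ := exists_smallest X.dim (P := IsCorrStable W X)
    isCorrStable_bot (fun _ _ h h' => h.inf h') (fun _ _ h h' => h.sup h')
    (fun M hM i hi => hM.eq_bot hi)
  refine ⟨N, hN, hmax, hmin, ?_, hN.excess_nonneg hD hHL⟩
  have h1 := hmin _ hN.perp (excess_perp hN).ge
  intro i j x hx y hy
  exact (h1 i hx).2 j y hy

section Gp

variable {Γ : Type w} [Group Γ] {ρ : Γ →* (W.H X ≃ₗ[W.K] W.H X)}

lemma IsCorrStable.conj (hρ : IsCorrAction W X D ρ) (hM : IsCorrStable W X M) (g : Γ) :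
    IsCorrStable W X (fun i => (M i).map (ρ g).toLinearMap) where
  le i := by
    rintro _ ⟨x, hx, rfl⟩
    exact hρ.gr_mem g i x (hM.le i hx)
  corr_mem {p i j z} hz hij x hx := by
    obtain ⟨x, hx, rfl⟩ := hx
    have h1 := hρ.corr_mem g⁻¹ p z hz
    rw [inv_inv] at h1
    refine ⟨_, hM.mem h1 (by omega) hx, ?_⟩
    simp only [LinearMap.comp_apply, LinearEquiv.coe_coe]
    have : ∀ y, ρ g (ρ g⁻¹ y) = y := fun y => by
      rw [← LinearEquiv.mul_apply, ← map_mul, mul_inv_cancel, map_one]; rfl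
    rw [this]

lemma excess_conj (g : Γ) :
    excess W X (fun i => (M i).map (ρ g).toLinearMap) = excess W X M := by
  rw [excess, excess, exc, exc]
  apply Finset.sum_congr rfl
  intro i _
  congr 2
  exact LinearEquiv.finrank_map_eq (ρ g) (M i)

lemma destab_gp (hρ : IsCorrAction W X D ρ) {N : ℕ → Submodule W.K (W.H X)}
    (hN : IsCorrStable W X N)
    (hmin : ∀ M, IsCorrStable W X M → excess W X N ≤ excess W X M → N ≤ M) (i : ℕ) :
    StabGp ρ (N i) := by
  intro g x hx
  obtain ⟨y, hy, hyx⟩ := hmin _ (hN.conj hρ g⁻¹) (excess_conj g⁻¹).ge i hx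
  have : ρ g (ρ g⁻¹ y) = y := by
    rw [← LinearEquiv.mul_apply, ← map_mul, mul_inv_cancel, map_one]; rfl
  rw [← hyx, LinearEquiv.coe_coe, this]
  exact hy

/-- **Semistability.** -/
theorem semistable_iff_isotropic (hD : X.IsCyc 1 D) (hHL : HardLefschetz W X D)
    (hρ : IsCorrAction W X D ρ) :
    LefschetzB W X D ↔ ∀ M, IsCorrStable W X M → IsIsotropic W X M →
      (∀ i, StabGp ρ (M i)) → excess W X M = 0 := by
  constructor
  · intro h M hM _ _
    exact le_antisymm ((lefschetzB_iff_symm hD hHL).1 h M hM) (hM.excess_nonneg hD hHL)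
  · intro h
    obtain ⟨N, hN, hmax, hmin, hiso, _⟩ := exists_destab hD hHL
    rw [lefschetzB_iff_symm hD hHL]
    intro M hM
    exact (hmax M hM).trans (h N hN hiso (destab_gp hρ hN hmin)).le

/-- Semisimplicity is needed for isotropic subspaces only. -/
theorem lefschetzB_of_complement (hD : X.IsCyc 1 D) (hHL : HardLefschetz W X D)
    (hρ : IsCorrAction W X D ρ)
    (h : ∀ M, IsCorrStable W X M → IsIsotropic W X M → (∀ i, StabGp ρ (M i)) →
      ∃ C, IsCorrStable W X C ∧ M ⊓ C = ⊥ ∧ M ⊔ C = W.gr X) :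
    LefschetzB W X D := by
  rw [semistable_iff_isotropic hD hHL hρ]
  intro M hM hiso hst
  obtain ⟨C, hC, h0, h1⟩ := h M hM hiso hst
  have h2 := exc_sup_inf X.dim M C
  rw [h0, h1, exc_bot] at h2
  have h3 := excess_perp (isCorrStable_gr (W := W) (X := X))
  have h4 : excess W X (W.gr X) = 0 := by
    have : perp (W.gr X) = (⊥ : ℕ → Submodule W.K (W.H X)) := by
      funext i
      rw [Pi.bot_apply, eq_bot_iff]
      intro x hx
      rw [Submodule.mem_bot]
      apply W.nondeg
      intro b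
      refine gr_induction (W.isInternal X) (p := fun b => W.tr X (x * b) = 0) ?_ ?_ b
      · exact fun j y hy => hx.2 j y hy
      · intro a b ha hb
        rw [mul_add, map_add, ha, hb, add_zero]
    rw [this] at h3
    rw [← h3, excess, exc_bot]
  have h5 := hM.excess_nonneg hD hHL
  have h6 := hC.excess_nonneg hD hHL
  rw [excess] at h4 h5 h6 ⊢
  omega

omit [Field k] in
lemma exists_irr {K V : Type*} [Field K] [AddCommGroup V] [Module K V] [FiniteDimensional K V]
    {Γ : Type*} [Group Γ] {ρ : Γ →* (V ≃ₗ[K] V)} {T : Submodule K V} (hT : T ≠ ⊥)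
    (hst : StabGp ρ T) : ∃ U ≤ T, IrrGp ρ U := by
  classical
  have hex : ∃ d, ∃ U ≤ T, StabGp ρ U ∧ U ≠ ⊥ ∧ finrank K U = d := ⟨_, T, le_rfl, hst, hT, rfl⟩
  obtain ⟨U, hU, hUst, hUne, hUd⟩ := Nat.find_spec hex
  refine ⟨U, hU, hUne, hUst, fun U' hU' hst' hne' => ?_⟩
  apply Submodule.eq_of_le_of_finrank_le hU'
  rw [hUd]
  exact Nat.find_min' hex ⟨U', hU'.trans hU, hst', hne', rfl⟩

/-- **The anisotropic case.** If there are no stable isotropic subspaces in the lower half, then
the conjecture holds if and only if the irreducible subspaces in the upper half are moved. -/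
theorem anisotropic_iff (hD : X.IsCyc 1 D) (hHL : HardLefschetz W X D)
    (hρ : IsCorrAction W X D ρ)
    (han : ∀ i ≤ X.dim, ∀ U ≤ W.gr X i, StabGp ρ U →
      (∀ x ∈ U, ∀ y ∈ U, W.tr X (x * (W.cl X D ^ (X.dim - i) * y)) = 0) → U = ⊥) :
    LefschetzB W X D ↔ ∀ i ≤ X.dim, ∀ U ≤ W.gr X (2 * X.dim - i), IrrGp ρ U →
      ∃ z, (X.prod X).IsCyc i z ∧ ∃ x ∈ U, W.corr (W.cl _ z) x ≠ 0 := by
  constructor
  · intro h i hi U hU hirr
    obtain ⟨u, hu, hux⟩ := (lefschetzB_iff hD hHL).1 h (X.dim - i) (by omega)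
    by_contra hno
    push Not at hno
    have h0 : ∀ x ∈ U, u x = 0 := by
      clear hux
      induction hu using Submodule.span_induction with
      | mem y hy =>
        intro x hx
        obtain ⟨p, hp, z, hz, rfl⟩ := hy
        obtain rfl : p = i := by omega
        exact hno z hz x hx
      | zero => intro x _; rfl
      | add y y' _ _ hy hy' =>
        intro x hx
        rw [LinearMap.add_apply, hy x hx, hy' x hx, add_zero]
      | smul s y _ hy =>
        intro x hx
        rw [LinearMap.smul_apply, hy x hx, smul_zero]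
    apply hirr.1
    rw [eq_bot_iff]
    intro x hx
    have h1 := hux x (by rw [show X.dim + (X.dim - i) = 2 * X.dim - i by omega]; exact hU hx)
    rw [h0 x hx, mul_zero] at h1
    rw [Submodule.mem_bot, h1]
  · intro h
    obtain ⟨N, hN, hmax, hmin, hiso, _⟩ := exists_destab hD hHL
    have hst := destab_gp hρ hN hmin
    have hlow : ∀ i ≤ X.dim, N i = ⊥ := by
      intro i hi
      apply han i hi _ (hN.le i) (hst i)
      intro x hx y hy
      exact hiso i (2 * X.dim - i) x hx _ (hN.Lc_mem hD hi hy)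
    have hup : ∀ i ≤ X.dim, N (2 * X.dim - i) = ⊥ := by
      intro i hi
      by_contra hne
      obtain ⟨U, hU, hirr⟩ := exists_irr hne (hst _)
      obtain ⟨z, hz, x, hx, hzx⟩ := h i hi U (hU.trans (hN.le _)) hirr
      apply hzx
      have h1 := hN.corr_mem hz (i := 2 * X.dim - i) (j := i) (by omega) x (hU hx)
      rw [hlow i hi, Submodule.mem_bot] at h1
      exact h1
    rw [lefschetzB_iff_symm hD hHL]
    intro M hM
    refine (hmax M hM).trans ?_
    rw [excess, exc_zero_iff (M := N) (fun i hi => hN.finrank_le hD hHL hi)]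
    intro i hi
    rw [hlow i hi, hup i hi]

end Gp

/-! ### Composition factors -/

/-- **The conjecture depends on the composition factors only.** -/
theorem lefschetzB_iff_simple (hD : X.IsCyc 1 D) (hHL : HardLefschetz W X D) :
    LefschetzB W X D ↔ ∀ M M', IsSimpleStep W X M M' → excess W X M' = excess W X M := by
  constructor
  · intro h M M' hs
    rw [lefschetzB_iff_symm hD hHL] at h
    rw [le_antisymm (h M hs.left) (hs.left.excess_nonneg hD hHL),
      le_antisymm (h M' hs.right) (hs.right.excess_nonneg hD hHL)]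
  · intro h
    rw [lefschetzB_iff_symm hD hHL]
    suffices H : ∀ t : ℕ, ∀ M, IsCorrStable W X M → totdim X.dim M ≤ t → excess W X M = 0 from
      fun M hM => (H _ M hM le_rfl).le
    intro t
    induction t with
    | zero =>
      intro M hM ht
      have : (⊥ : ℕ → Submodule W.K (W.H X)) = M :=
        eq_of_le_of_totdim (n := X.dim) bot_le (ht.trans (Nat.zero_le _))
          (fun i hi => hM.eq_bot hi)
      rw [← this, excess, exc_bot]
    | succ t ih =>
      intro M hM ht
      by_cases hb : M = ⊥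
      · rw [hb, excess, exc_bot]
      · classical
        -- a maximal proper stable subspace
        have hfin : ∃ d, ∃ M', IsCorrStable W X M' ∧ M' < M ∧ totdim X.dim M' + d =
            totdim X.dim M :=
          ⟨totdim X.dim M, ⊥, isCorrStable_bot, bot_lt_iff_ne_bot.2 hb, by simp [totdim]⟩
        obtain ⟨M', hM', hlt, hd⟩ := Nat.find_spec hfin
        have hs : IsSimpleStep W X M' M := by
          refine ⟨hM', hM, hlt, fun M'' hM'' h1 h2 => ?_⟩
          by_contra hno
          push Not at hno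
          have hlt' : M'' < M := lt_of_le_of_ne h2 hno.2
          have h3 : totdim X.dim M'' ≤ totdim X.dim M :=
            Finset.sum_le_sum (fun i _ => Submodule.finrank_mono (h2 i))
          have h4 := Nat.find_min' hfin ⟨M'', hM'', hlt',
            Nat.add_sub_cancel' h3⟩
          have h5 : totdim X.dim M'' ≤ totdim X.dim M' := by omega
          exact hno.1 (eq_of_le_of_totdim h1 h5 (fun i hi => hM''.eq_bot hi)).symm
        rw [h _ _ hs]
        apply ih _ hM'
        have h6 : totdim X.dim M' < totdim X.dim M := by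
          by_contra h7
          exact hlt.ne (eq_of_le_of_totdim hlt.le (not_lt.1 h7) (fun i hi => hM.eq_bot hi))
        omega

/-! ### One cycle for all theories -/

theorem one_cycle (hD : X.IsCyc 1 D) (hHL : HardLefschetz W X D) :
    LefschetzB W X D ↔ ∀ i ≤ X.dim, ∃ z, (X.prod X).IsCyc i z ∧
      ∀ W' : WeilCohomology.{u, v} ops, (∀ j, W'.betti X j = W.betti X j) →
        HardLefschetz W' X D ∧ InducesInverse W' X D i z := by
  constructor
  · intro h i hi
    by_cases hn : 1 ≤ X.dim
    · obtain ⟨Z, hZ, hall⟩ := indep_weil hn D hD W hHL h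
      have hr := (realized_corr (ops := ops) hn hZ).pow (X.dim - i)
      rcases hr with ⟨q, hq, z, hz, hzW⟩ | ⟨h1, _⟩
      · obtain rfl : q = i := by push_cast [Nat.cast_sub hi] at hq; omega
        refine ⟨z, hz, fun W' hb => ?_⟩
        obtain ⟨hHL', hLam⟩ := ((hall W').out 2 1).1 hb
        have hLh : IsHom (W'.gr X) 2 (LinearMap.mulLeft W'.K (W'.cl X D)) := isHom_mulLeft W' hD
        have key : ∀ x ∈ W'.gr X q, W'.corr (W'.cl _ z) (W'.cl X D ^ (X.dim - q) * x) = x := by
          intro x hx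
          have h2 := lam_pow_L_pow hLh W_hbd hHL' hLam (c := X.dim - q) (by omega)
            (a := x) (by rw [show X.dim - (X.dim - q) = q by omega]; exact hx)
          have h3 : W'.corr (W'.cl _ Z) ^ (X.dim - q) = W'.corr (W'.cl _ z) := hzW W'
          rw [← Lc_eq, h3] at h2
          exact h2
        refine ⟨hHL', key, fun y hy => ?_⟩
        obtain ⟨x, hx, hxy⟩ := (hHL' q hi).2 y hy
        rw [← Lc_eq, Lc_apply] at hxy
        rw [← hxy, key x hx]
      · exfalso
        push_cast [Nat.cast_sub hi] at h1; omega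
    · have hn0 : X.dim = 0 := by omega
      obtain rfl : i = 0 := by omega
      rcases Realized.one.{u, v} (ops := ops) (X := X) with ⟨q, hq, z, hz, hzW⟩ | ⟨h1, _⟩
      · obtain rfl : q = 0 := by omega
        refine ⟨z, hz, fun W' _ => ⟨?_, ?_, ?_⟩⟩
        · intro i hi
          obtain rfl : i = 0 := by omega
          rw [hn0]
          exact ⟨fun a _ h => by simpa using h, fun b hb => ⟨b, hb, by simp⟩⟩
        · intro x _
          rw [hn0, ← hzW W']
          simp
        · intro x _
          rw [hn0, ← hzW W']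
          simp
      · omega
  · intro h
    rw [lefschetzB_iff hD hHL]
    intro c hc
    obtain ⟨z, hz, hall⟩ := h (X.dim - c) (by omega)
    refine ⟨_, KOp.gen (p := X.dim - c) (by omega) hz, fun x hx => ?_⟩
    have := (hall W (fun _ => rfl)).2.2 x
      (by rw [show 2 * X.dim - (X.dim - c) = X.dim + c by omega]; exact hx)
    rwa [show X.dim - (X.dim - c) = c by omega] at this

end Pool.Agent.U724B
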