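import Pool.Agent.U724B.SysDefs
import Pool.Agent.U724B.Ex

/-!
# Translation of the results to graded modules over the algebraic correspondences
-/

open CategoryTheory AlgebraicGeometry Module

universe u v w

namespace Pool.Agent.U724B

open Pool.Agent.H914 VarClass Obj WeilCohomology

variable {k : Type u} [Field k] {𝒱 : VarClass k} {ops : CycleOps 𝒱}
  {W : WeilCohomology.{u, v} ops} {X : 𝒱.Obj} {D : X.Cycles}

lemma cohMod_iter (c : ℕ) (x : W.H X) :
    (cohMod W X D).L^[c] x = W.cl X D ^ c * x := by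
  induction c with
  | zero => rw [pow_zero, one_mul]; rfl
  | succ c ih =>
    rw [Function.iterate_succ_apply', ih, pow_succ', mul_assoc]
    rfl

lemma cyc_iff {d : ℤ} {u : W.H X → W.H X} :
    (cohMod W X D).Cyc d u ↔ ∃ p : ℕ, (p : ℤ) = X.dim + d ∧
      ∃ z, (X.prod X).IsCyc p z ∧ ∀ x, W.corr (W.cl _ z) x = u x := Iff.rfl

lemma op_iff {d : ℤ} {u : W.H X → W.H X} :
    (cohMod W X D).Op d u ↔ ∃ u' ∈ KOp W X X d, ∀ x, u' x = u x := by
  constructor
  · intro h
    refine Submodule.span_induction (p := fun (u : (cohMod W X D).V → (cohMod W X D).V) _ =>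
      ∃ u' ∈ KOp W X X d, ∀ x : W.H X, u' x = u x) ?_ ?_ ?_ ?_ h
    · rintro u ⟨p, hp, z, hz, hu⟩
      exact ⟨_, KOp.gen hp hz, hu⟩
    · exact ⟨0, Submodule.zero_mem _, fun _ => rfl⟩
    · rintro u v _ _ ⟨u', hu', h1⟩ ⟨v', hv', h2⟩
      exact ⟨u' + v', Submodule.add_mem _ hu' hv', fun x => congrArg₂ (· + ·) (h1 x) (h2 x)⟩
    · rintro a u _ ⟨u', hu', h1⟩
      exact ⟨a • u', Submodule.smul_mem _ _ hu', fun x => congrArg (a • ·) (h1 x)⟩
  · rintro ⟨u', hu', h⟩
    obtain rfl : (fun x => u' x) = u := funext h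
    clear h
    induction hu' using Submodule.span_induction with
    | mem y hy =>
      obtain ⟨p, hp, z, hz, rfl⟩ := hy
      exact Submodule.subset_span ⟨p, hp, z, hz, fun _ => rfl⟩
    | zero => exact Submodule.zero_mem _
    | add y y' _ _ hy hy' => exact Submodule.add_mem _ hy hy'
    | smul s y _ hy => exact Submodule.smul_mem _ s hy

lemma hasInverse_bridge {c : ℕ} : (cohMod W X D).HasInverse c ↔ HasInverse W X D c := by
  constructor
  · rintro ⟨u, hu, h⟩
    obtain ⟨u', hu', hu⟩ := op_iff.1 hu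
    refine ⟨u', hu', fun x hx => ?_⟩
    rw [hu, ← cohMod_iter]
    exact h x hx
  · rintro ⟨u, hu, h⟩
    refine ⟨fun x => u x, op_iff.2 ⟨u, hu, fun _ => rfl⟩, fun x hx => ?_⟩
    exact (cohMod_iter c _).trans (h x hx)

lemma hasLocalInverses_bridge {c : ℕ} :
    (cohMod W X D).HasLocalInverses c ↔ HasLocalInverses W X D c := by
  constructor
  · intro h x hx
    obtain ⟨u, hu, hux⟩ := h x hx
    obtain ⟨u', hu', hu⟩ := op_iff.1 hu
    refine ⟨u', hu', ?_⟩
    rw [hu, ← cohMod_iter]
    exact hux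
  · intro h x hx
    obtain ⟨u, hu, hux⟩ := h x hx
    exact ⟨fun x => u x, op_iff.2 ⟨u, hu, fun _ => rfl⟩, (cohMod_iter c _).trans hux⟩

lemma lefSpan_bridge {c : ℕ} (U : Submodule W.K (W.H X)) :
    (cohMod W X D).lefSpan c U = lefSpan W X D c U := by
  rw [CohMod.lefSpan, lefSpan]
  apply congrArg (Submodule.span W.K)
  ext y
  constructor
  · rintro ⟨u, x, hu, hx, rfl⟩
    obtain ⟨u', hu', hu⟩ := op_iff.1 hu
    refine ⟨u', hu', x, hx, ?_⟩
    rw [hu]
    exact (cohMod_iter c _).symm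
  · rintro ⟨u, hu, x, hx, rfl⟩
    exact ⟨fun x => u x, x, op_iff.2 ⟨u, hu, fun _ => rfl⟩, hx, cohMod_iter c _⟩

section Gp

variable {Γ : Type w} [Group Γ]

/-- the action as a homomorphism -/
noncomputable def toRho (A : (cohMod W X D).Action Γ) : Γ →* (W.H X ≃ₗ[W.K] W.H X) where
  toFun g :=
    { toFun := A.app g
      map_add' := A.add g
      map_smul' := A.smul g
      invFun := A.app g⁻¹
      left_inv := fun x => by rw [← A.mul, inv_mul_cancel, A.one]
      right_inv := fun x => by rw [← A.mul, mul_inv_cancel, A.one] }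
  map_one' := by
    apply LinearEquiv.ext
    intro x
    exact A.one x
  map_mul' g h := by
    apply LinearEquiv.ext
    intro x
    exact A.mul g h x

lemma toRho_apply (A : (cohMod W X D).Action Γ) (g : Γ) (x : W.H X) :
    toRho A g x = A.app g x := rfl

lemma isCorrAction_toRho (A : (cohMod W X D).Action Γ) : IsCorrAction W X D (toRho A) where
  gr_mem := A.gr_mem
  corr_mem g p z hz := by
    have h1 := A.conj g ((p : ℤ) - X.dim) (cycAct W X z)
      ⟨p, by simp, z, hz, fun _ => rfl⟩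
    obtain ⟨u', hu', hu⟩ := op_iff.1 h1
    have : (toRho A g).toLinearMap ∘ₗ W.corr (W.cl _ z) ∘ₗ (toRho A g⁻¹).toLinearMap = u' := by
      apply LinearMap.ext
      intro x
      exact (hu x).symm
    rw [this]
    exact hu'
  lef := A.lef

lemma stable_bridge (A : (cohMod W X D).Action Γ) (U : Submodule W.K (W.H X)) :
    A.Stable U ↔ StabGp (toRho A) U := Iff.rfl

lemma irreducible_bridge (A : (cohMod W X D).Action Γ) (U : Submodule W.K (W.H X)) :
    A.Irreducible U ↔ IrrGp (toRho A) U := Iff.rfl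

lemma semisimple_bridge (A : (cohMod W X D).Action Γ) (T : Submodule W.K (W.H X)) :
    A.Semisimple T ↔ SemisimpleGp (toRho A) T := Iff.rfl

end Gp

lemma isSub_bridge {M : ℕ → Submodule W.K (W.H X)} :
    (cohMod W X D).IsSub M ↔ IsCorrStable W X M := by
  constructor
  · intro h
    refine ⟨h.le, fun {p i j z} hz hij x hx => ?_⟩
    exact h.mem ((p : ℤ) - X.dim) i j (cycAct W X z)
      ⟨p, by simp, z, hz, fun _ => rfl⟩ (by omega) x hx
  · intro h
    refine ⟨h.le, ?_⟩
    rintro d i j u ⟨p, hp, z, hz, hu⟩ hij x hx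
    rw [← hu]
    exact h.corr_mem hz (by omega) x hx

lemma excess_bridge (M : ℕ → Submodule W.K (W.H X)) :
    (cohMod W X D).excess M = excess W X M := rfl

lemma isotropic_bridge (M : ℕ → Submodule W.K (W.H X)) :
    (cohMod W X D).IsIsotropic M ↔ IsIsotropic W X M := Iff.rfl

lemma isFactor_bridge {M M' : ℕ → Submodule W.K (W.H X)} :
    (cohMod W X D).IsFactor M M' ↔ IsSimpleStep W X M M' := by
  constructor
  · intro h
    exact ⟨isSub_bridge.1 h.left, isSub_bridge.1 h.right, h.lt,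
      fun M'' hM'' => h.simple M'' (isSub_bridge.2 hM'')⟩
  · intro h
    exact ⟨isSub_bridge.2 h.left, isSub_bridge.2 h.right, h.lt,
      fun M'' hM'' => h.simple M'' (isSub_bridge.1 hM'')⟩

theorem semisimpleRule (hD : X.IsCyc 1 D) {c : ℕ} : (cohMod W X D).SemisimpleRule.{v, w} c := by
  intro Γ _ A hss
  rw [hasInverse_bridge]
  have key := (degree_tfae hD (isCorrAction_toRho A) hss).out 0 2
  refine key.trans ?_
  constructor
  · intro h U hU hirr
    rw [lefSpan_bridge]
    exact h U hU hirr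
  · intro h U hU hirr
    rw [← lefSpan_bridge]
    exact h U hU hirr

theorem irreducibleRule (hD : X.IsCyc 1 D) (hHL : HardLefschetz W X D) {c : ℕ} (hc : c ≤ X.dim) :
    (cohMod W X D).IrreducibleRule.{v, w} c := by
  intro Γ _ A hirr
  rw [hasInverse_bridge, irreducible_iff hD hHL hc (isCorrAction_toRho A) hirr]
  constructor
  · rintro ⟨z, hz, x, hx, hne⟩
    exact ⟨cycAct W X z, ⟨X.dim - c, by omega, z, hz, fun _ => rfl⟩, x, hx, hne⟩
  · rintro ⟨u, ⟨p, hp, z, hz, hu⟩, x, hx, hne⟩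
    obtain rfl : p = X.dim - c := by omega
    refine ⟨z, hz, x, hx, ?_⟩
    change cycAct W X z x ≠ 0
    rw [hu]
    exact hne

theorem exists_destabilizing (hD : X.IsCyc 1 D) (hHL : HardLefschetz W X D) :
    ∃ N, (cohMod W X D).IsDestabilizing N ∧ (cohMod W X D).IsIsotropic N ∧
      ∀ (Γ : Type w) [Group Γ] (A : (cohMod W X D).Action Γ) (i : ℕ), A.Stable (N i) := by
  obtain ⟨N, hN, hmax, hmin, hiso, h0⟩ := exists_destab hD hHL
  refine ⟨N, ⟨isSub_bridge.2 hN, fun M hM => hmax M (isSub_bridge.1 hM),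
    fun M hM => hmin M (isSub_bridge.1 hM)⟩, hiso, fun Γ _ A i => ?_⟩
  exact destab_gp (isCorrAction_toRho A) hN hmin i

lemma oneCycle_bridge (hD : X.IsCyc 1 D) (hHL : HardLefschetz W X D) :
    OneCycleForAll W X D ↔ LefschetzB W X D := by
  rw [one_cycle hD hHL]
  have key : ∀ (W' : WeilCohomology.{u, v} ops) (i : ℕ) (z : (X.prod X).Cycles),
      (cohMod W' X D).Inverts i (cycAct W' X z) ↔ InducesInverse W' X D i z := by
    intro W' i z
    constructor
    · rintro ⟨h1, h2⟩
      refine ⟨fun x hx => ?_, fun y hy => ?_⟩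
      · have := h1 x hx
        have h3 := cohMod_iter (W := W') (X := X) (D := D) (X.dim - i) x
        rw [← h3]
        exact this
      · rw [← cohMod_iter]
        exact h2 y hy
    · rintro ⟨h1, h2⟩
      refine ⟨fun x hx => ?_, fun y hy => ?_⟩
      · have := h1 x hx
        rw [← cohMod_iter] at this
        exact this
      · exact (cohMod_iter _ _).trans (h2 y hy)
  constructor
  · intro h i hi
    obtain ⟨z, hz, h⟩ := h i hi
    exact ⟨z, hz, fun W' hb => ⟨(h W' hb).1, (key W' i z).1 (h W' hb).2⟩⟩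
  · intro h i hi
    obtain ⟨z, hz, h⟩ := h i hi
    exact ⟨z, hz, fun W' hb => ⟨(h W' hb).1, (key W' i z).2 (h W' hb).2⟩⟩

theorem semistable_tfae (hD : X.IsCyc 1 D) (hHL : HardLefschetz W X D) {Γ : Type w} [Group Γ]
    (A : (cohMod W X D).Action Γ) :
    List.TFAE [
      OneCycleForAll W X D,
      LefschetzB W X D,
      ∀ M, (cohMod W X D).IsSub M → (cohMod W X D).excess M ≤ 0,
      ∀ M M', (cohMod W X D).IsFactor M M' → (cohMod W X D).excess M' = (cohMod W X D).excess M,
      ∀ M, (cohMod W X D).IsSub M → (cohMod W X D).IsIsotropic M → (∀ i, A.Stable (M i)) →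
        (cohMod W X D).excess M = 0] := by
  tfae_have 1 ↔ 2 := (oneCycle_bridge hD hHL)
  tfae_have 2 ↔ 3 := by
    rw [lefschetzB_iff_symm hD hHL]
    exact ⟨fun h M hM => h M (isSub_bridge.1 hM), fun h M hM => h M (isSub_bridge.2 hM)⟩
  tfae_have 2 ↔ 4 := by
    rw [lefschetzB_iff_simple hD hHL]
    exact ⟨fun h M M' hM => h M M' (isFactor_bridge.1 hM),
      fun h M M' hM => h M M' (isFactor_bridge.2 hM)⟩
  tfae_have 2 ↔ 5 := by
    rw [semistable_iff_isotropic hD hHL (isCorrAction_toRho A)]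
    exact ⟨fun h M hM => h M (isSub_bridge.1 hM), fun h M hM => h M (isSub_bridge.2 hM)⟩
  tfae_finish

theorem of_complements (hD : X.IsCyc 1 D) (hHL : HardLefschetz W X D) {Γ : Type w} [Group Γ]
    (A : (cohMod W X D).Action Γ) (h : A.Complements) : LefschetzB W X D := by
  apply lefschetzB_of_complement hD hHL (isCorrAction_toRho A)
  intro M hM hiso hst
  obtain ⟨C, hC, h1⟩ := h M (isSub_bridge.2 hM) hiso hst
  exact ⟨C, isSub_bridge.1 hC, h1⟩

theorem of_anisotropic (hD : X.IsCyc 1 D) (hHL : HardLefschetz W X D) {Γ : Type w} [Group Γ]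
    (A : (cohMod W X D).Action Γ) (h : A.Anisotropic) : LefschetzB W X D ↔ A.Detects := by
  rw [anisotropic_iff hD hHL (isCorrAction_toRho A)]
  · constructor
    · intro h1 i hi U hU hirr
      obtain ⟨z, hz, x, hx, hne⟩ := h1 i hi U hU hirr
      have hi' : i ≤ X.dim := hi
      exact ⟨cycAct W X z,
        ⟨i, by change (i : ℤ) = X.dim + ((i : ℤ) - X.dim); ring, z, hz, fun _ => rfl⟩, x, hx, hne⟩
    · intro h1 i hi U hU hirr
      obtain ⟨u, ⟨p, hp, z, hz, hu⟩, x, hx, hne⟩ := h1 i hi U hU hirr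
      have hp' : (p : ℤ) = X.dim + ((i : ℤ) - X.dim) := hp
      obtain rfl : p = i := by omega
      refine ⟨z, hz, x, hx, ?_⟩
      change cycAct W X z x ≠ 0
      rw [hu]
      exact hne
  · intro i hi U hU hst hiso
    refine h i hi U hU hst (fun x hx y hy => ?_)
    have h2 := cohMod_iter (W := W) (X := X) (D := D) (X.dim - i) y
    have h3 := hiso x hx y hy
    rw [← h2] at h3
    exact h3

end Pool.Agent.U724B
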