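import Mathlib

/-!
# A local-global principle for algebras of operators with a group action
-/

set_option linter.unusedSectionVars false

namespace Pool.Agent.U724B

variable {K V : Type*} [Field K] [AddCommGroup V] [Module K V]

/-- The subspace `T` is stable under the operators in `R`. -/
def StabOp (R : Submodule K (Module.End K V)) (T : Submodule K V) : Prop :=
  ∀ a ∈ R, ∀ x ∈ T, a x ∈ T

/-- The subspace `T` is stable under the group `Γ`. -/
def StabGp {Γ : Type*} [Group Γ] (ρ : Γ →* (V ≃ₗ[K] V)) (T : Submodule K V) : Prop :=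
  ∀ g, ∀ x ∈ T, ρ g x ∈ T

/-- The subspace spanned by the images of the elements of `U` under the operators in `R`. -/
def opSpan (R : Submodule K (Module.End K V)) (U : Submodule K V) : Submodule K V :=
  Submodule.span K {y | ∃ a ∈ R, ∃ x ∈ U, a x = y}

/-- The nonzero subspace `U` is stable under `Γ` and contains no other nonzero stable subspace. -/
def IrrGp {Γ : Type*} [Group Γ] (ρ : Γ →* (V ≃ₗ[K] V)) (U : Submodule K V) : Prop :=
  U ≠ ⊥ ∧ StabGp ρ U ∧ ∀ U' ≤ U, StabGp ρ U' → U' ≠ ⊥ → U' = U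

/-- Every `Γ`-stable subspace of `T` has a `Γ`-stable complement in `T`. -/
def SemisimpleGp {Γ : Type*} [Group Γ] (ρ : Γ →* (V ≃ₗ[K] V)) (T : Submodule K V) : Prop :=
  ∀ M ≤ T, StabGp ρ M → ∃ C ≤ T, StabGp ρ C ∧ M ⊓ C = ⊥ ∧ M ⊔ C = T

/-- Every element `y` of `T` is fixed by an operator in `R`, which may depend on `y`. -/
def PW (R : Submodule K (Module.End K V)) (T : Submodule K V) : Prop :=
  ∀ y ∈ T, ∃ a ∈ R, a y = y

variable {R : Submodule K (Module.End K V)}

section basic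

variable (hmul : ∀ a ∈ R, ∀ b ∈ R, a * b ∈ R)
include hmul

lemma step {s t : Module.End K V} (hs : s ∈ R) (ht : t ∈ R) : s + t - s * t ∈ R :=
  R.sub_mem (R.add_mem hs ht) (hmul s hs t ht)

lemma step_apply {s t : Module.End K V} {y : V} (h : s (y - t y) = y - t y) :
    (s + t - s * t) y = y := by
  rw [map_sub] at h
  rw [LinearMap.sub_apply, LinearMap.add_apply, Module.End.mul_apply]
  have : s y - s (t y) = y - t y := h
  calc s y + t y - s (t y) = (s y - s (t y)) + t y := by abel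
    _ = y := by rw [this]; abel

lemma pw_sup {T₁ T₂ : Submodule K V} (h₁ : StabOp R T₁) (p₁ : PW R T₁)
    (p₂ : PW R T₂) : PW R (T₁ ⊔ T₂) := by
  intro y hy
  obtain ⟨y₁, hy₁, y₂, hy₂, rfl⟩ := Submodule.mem_sup.1 hy
  obtain ⟨t, ht, hty⟩ := p₂ y₂ hy₂
  have hz : y₁ - t y₁ ∈ T₁ := T₁.sub_mem hy₁ (h₁ t ht y₁ hy₁)
  obtain ⟨s, hs, hsz⟩ := p₁ _ hz
  refine ⟨s + t - s * t, step hmul hs ht, step_apply hmul ?_⟩
  have e : y₁ + y₂ - t (y₁ + y₂) = y₁ - t y₁ := by rw [map_add, hty]; abel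
  rw [e, hsz]

/-- A pointwise identity can be chosen uniformly. -/
lemma exists_unit_of_pw {T : Submodule K V} (hfg : T.FG) (hR : StabOp R T) (p : PW R T) :
    ∃ r ∈ R, ∀ x ∈ T, r x = x := by
  classical
  obtain ⟨S, hS⟩ := hfg
  have key : ∀ F : Finset V, (∀ x ∈ F, x ∈ T) → ∃ r ∈ R, ∀ x ∈ F, r x = x := by
    intro F
    induction F using Finset.induction_on with
    | empty => exact fun _ => ⟨0, R.zero_mem, fun x hx => absurd hx (by simp)⟩
    | insert a F _ ih =>
      intro hF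
      obtain ⟨r, hr, h⟩ := ih (fun x hx => hF x (Finset.mem_insert_of_mem hx))
      have ha : a ∈ T := hF a (Finset.mem_insert_self _ _)
      obtain ⟨t, ht, hty⟩ := p (a - r a) (T.sub_mem ha (hR r hr a ha))
      refine ⟨t + r - t * r, step hmul ht hr, fun x hx => ?_⟩
      rcases Finset.mem_insert.1 hx with rfl | hx
      · exact step_apply hmul hty
      · apply step_apply hmul
        rw [h x hx, sub_self, map_zero]
  obtain ⟨r, hr, h⟩ := key S (fun x hx => hS ▸ Submodule.subset_span hx)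
  refine ⟨r, hr, fun x hx => ?_⟩
  rw [← hS] at hx
  induction hx using Submodule.span_induction with
  | mem x hx => exact h x hx
  | zero => exact map_zero r
  | add x y _ _ hx hy => rw [map_add, hx, hy]
  | smul c x _ hx => rw [map_smul, hx]

variable [Module.Finite K V] {Γ : Type*} [Group Γ] {ρ : Γ →* (V ≃ₗ[K] V)}
  (hnorm : ∀ g, ∀ a ∈ R, (ρ g).toLinearMap ∘ₗ a ∘ₗ (ρ g⁻¹).toLinearMap ∈ R)
include hnorm

lemma conj_apply {g : Γ} {a : Module.End K V} (x : V) :
    ((ρ g).toLinearMap ∘ₗ a ∘ₗ (ρ g⁻¹).toLinearMap) (ρ g x) = ρ g (a x) := by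
  have h : ρ g⁻¹ (ρ g x) = x := by
    rw [← LinearEquiv.mul_apply, ← map_mul, inv_mul_cancel, map_one]; rfl
  change ρ g (a (ρ g⁻¹ (ρ g x))) = _
  rw [h]

omit [Module.Finite K V] in
lemma inv_apply_apply {g : Γ} (x : V) : ρ g⁻¹ (ρ g x) = x := by
  rw [← LinearEquiv.mul_apply, ← map_mul, inv_mul_cancel, map_one]; rfl

omit [Module.Finite K V] in
lemma apply_inv_apply {g : Γ} (x : V) : ρ g (ρ g⁻¹ x) = x := by
  rw [← LinearEquiv.mul_apply, ← map_mul, mul_inv_cancel, map_one]; rfl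

/-- The main step: there is a pointwise identity if no quotient by a stable subspace contains a
vector killed by `R`. -/
lemma pw_of_quot {T₀ : Submodule K V} (h₀ : StabOp R T₀) (g₀ : StabGp ρ T₀)
    (H : ∀ P ≤ T₀, StabOp R P → StabGp ρ P → ∀ x ∈ T₀, (∀ a ∈ R, a x ∈ P) → x ∈ P) :
    PW R T₀ := by
  classical
  -- a maximal stable subspace with a pointwise identity
  obtain ⟨P, ⟨hP₀, hPR, hPW⟩, hmax⟩ := WellFounded.has_min
    (wellFounded_gt (α := Submodule K V)) {T | T ≤ T₀ ∧ StabOp R T ∧ PW R T}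
    ⟨⊥, bot_le, fun a _ x hx => by
      rw [(Submodule.mem_bot K).1 hx, map_zero]; exact Submodule.zero_mem _,
      fun y hy => ⟨0, R.zero_mem, by rw [(Submodule.mem_bot K).1 hy]; rfl⟩⟩
  have hle : ∀ T, T ≤ T₀ → StabOp R T → PW R T → T ≤ P := by
    intro T hT hTR hTW
    by_contra hn
    refine hmax (T ⊔ P) ⟨sup_le hT hP₀, ?_, pw_sup hmul hTR hTW hPW⟩ ?_
    · intro a ha x hx
      obtain ⟨y, hy, z, hz, rfl⟩ := Submodule.mem_sup.1 hx
      rw [map_add]
      exact Submodule.add_mem_sup (hTR a ha y hy) (hPR a ha z hz)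
    · exact lt_of_le_of_ne le_sup_right (fun h => hn (h ▸ le_sup_left))
  have hPG : StabGp ρ P := by
    intro g x hx
    have h1 : P.map (ρ g).toLinearMap ≤ P := by
      apply hle
      · rintro _ ⟨y, hy, rfl⟩
        exact g₀ g y (hP₀ hy)
      · rintro a ha _ ⟨y, hy, rfl⟩
        have h2 := hnorm g⁻¹ a ha
        refine ⟨((ρ g⁻¹).toLinearMap ∘ₗ a ∘ₗ (ρ g⁻¹⁻¹).toLinearMap) y, hPR _ h2 y hy, ?_⟩
        change ρ g (ρ g⁻¹ (a (ρ g⁻¹⁻¹ y))) = _
        rw [apply_inv_apply hmul hnorm, inv_inv]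
        rfl
      · rintro _ ⟨y, hy, rfl⟩
        obtain ⟨a, ha, hay⟩ := hPW y hy
        refine ⟨_, hnorm g a ha, ?_⟩
        have := conj_apply hmul hnorm (g := g) (a := a) y
        rw [hay] at this
        exact this
    exact h1 ⟨x, hx, rfl⟩
  by_cases hPT : P = T₀
  · rw [← hPT]; exact hPW
  exfalso
  -- a minimal stable subspace above it
  obtain ⟨T, ⟨hT₀, hTR, hPT'⟩, hmin⟩ := WellFounded.has_min
    (wellFounded_lt (α := Submodule K V)) {T | T ≤ T₀ ∧ StabOp R T ∧ P < T}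
    ⟨T₀, le_rfl, h₀, lt_of_le_of_ne hP₀ hPT⟩
  have hTW : PW R T := by
    intro y hy
    by_cases hyP : y ∈ P
    · exact hPW y hyP
    set O : Submodule K V := R.map (LinearMap.applyₗ y) with hO
    have hOmem : ∀ z, z ∈ O ↔ ∃ a ∈ R, a y = z := by
      intro z
      simp only [hO, Submodule.mem_map, LinearMap.applyₗ_apply_apply]
    have hOT : O ≤ T := by
      intro z hz
      obtain ⟨a, ha, rfl⟩ := (hOmem z).1 hz
      exact hTR a ha y hy
    have hst : StabOp R (P ⊔ O) := by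
      intro a ha x hx
      obtain ⟨u, hu, v, hv, rfl⟩ := Submodule.mem_sup.1 hx
      obtain ⟨b, hb, rfl⟩ := (hOmem v).1 hv
      rw [map_add]
      exact Submodule.add_mem_sup (hPR a ha u hu) ((hOmem _).2 ⟨a * b, hmul a ha b hb, rfl⟩)
    have hlt : P < P ⊔ O := by
      refine lt_of_le_of_ne le_sup_left (fun h => hyP ?_)
      refine H P hP₀ hPR hPG y (hT₀ hy) (fun a ha => ?_)
      rw [h]
      exact Submodule.mem_sup_right ((hOmem _).2 ⟨a, ha, rfl⟩)
    have heq : P ⊔ O = T := by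
      by_contra hne
      exact hmin (P ⊔ O) ⟨sup_le hP₀ (hOT.trans hT₀), hst, hlt⟩
        (lt_of_le_of_ne (sup_le hPT'.le hOT) hne)
    rw [← heq] at hy
    obtain ⟨p, hp, v, hv, hpv⟩ := Submodule.mem_sup.1 hy
    obtain ⟨r, hr, rfl⟩ := (hOmem v).1 hv
    obtain ⟨s, hs, hsp⟩ := hPW p hp
    refine ⟨s + r - s * r, step hmul hs hr, step_apply hmul ?_⟩
    have e' : y - r y = p := by
      have := hpv
      exact sub_eq_of_eq_add this.symm
    rw [e', hsp]
  exact absurd (hle T hT₀ hTR hTW) (not_le_of_gt hPT')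

/-- **The local-global principle.** Let the group `Γ` act semisimply on `T₀`. If every irreducible
`Γ`-stable subspace `U` of `T₀` is contained in `R U` then `R` contains an operator which is the
identity on `T₀`. -/
theorem local_global {T₀ : Submodule K V} (h₀ : StabOp R T₀) (g₀ : StabGp ρ T₀)
    (hss : SemisimpleGp ρ T₀)
    (hU : ∀ U ≤ T₀, IrrGp ρ U → U ≤ opSpan R U) :
    ∃ r ∈ R, ∀ x ∈ T₀, r x = x := by
  refine exists_unit_of_pw hmul (IsNoetherian.noetherian _) h₀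
    (pw_of_quot hmul hnorm h₀ g₀ ?_)
  intro P hP hPR hPG
  set M : Submodule K V :=
    { carrier := {x | x ∈ T₀ ∧ ∀ a ∈ R, a x ∈ P}
      zero_mem' := ⟨T₀.zero_mem, fun a _ => by rw [map_zero]; exact P.zero_mem⟩
      add_mem' := fun {x y} hx hy => ⟨T₀.add_mem hx.1 hy.1, fun a ha => by
        rw [map_add]; exact P.add_mem (hx.2 a ha) (hy.2 a ha)⟩
      smul_mem' := fun c x hx => ⟨T₀.smul_mem c hx.1, fun a ha => by
        rw [map_smul]; exact P.smul_mem c (hx.2 a ha)⟩ } with hM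
  have hMG : StabGp ρ M := by
    rintro g x ⟨hx, hx'⟩
    refine ⟨g₀ g x hx, fun a ha => ?_⟩
    have h1 := hx' _ (hnorm g⁻¹ a ha)
    have h2 := hPG g _ h1
    change ρ g (ρ g⁻¹ (a (ρ g⁻¹⁻¹ x))) ∈ P at h2
    rwa [apply_inv_apply hmul hnorm, inv_inv] at h2
  have hPM : P ≤ M := fun x hx => ⟨hP hx, fun a ha => hPR a ha x hx⟩
  obtain ⟨C, hC, hCG, hPC, hPC'⟩ := hss P hP hPG
  have hN : M ⊓ C = ⊥ := by
    by_contra hne
    have hNG : StabGp ρ (M ⊓ C) := fun g x hx => ⟨hMG g x hx.1, hCG g x hx.2⟩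
    obtain ⟨U, ⟨hUN, hUG, hU0⟩, hmin⟩ := WellFounded.has_min
      (wellFounded_lt (α := Submodule K V)) {T | T ≤ M ⊓ C ∧ StabGp ρ T ∧ T ≠ ⊥}
      ⟨M ⊓ C, le_rfl, hNG, hne⟩
    have hirr : IrrGp ρ U := by
      refine ⟨hU0, hUG, fun U' hU' hG' h0' => ?_⟩
      by_contra hne'
      exact hmin U' ⟨hU'.trans hUN, hG', h0'⟩ (lt_of_le_of_ne hU' hne')
    have h1 : U ≤ opSpan R U := hU U ((hUN.trans inf_le_right).trans hC) hirr
    have h2 : opSpan R U ≤ P := by
      apply Submodule.span_le.2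
      rintro _ ⟨a, ha, x, hx, rfl⟩
      exact (hUN hx).1.2 a ha
    apply hU0
    rw [eq_bot_iff, ← hPC]
    exact le_inf (h1.trans h2) (hUN.trans inf_le_right)
  have hMP : M ≤ P := by
    intro x hx
    have hx₀ : x ∈ P ⊔ C := by rw [hPC']; exact hx.1
    obtain ⟨p, hp, c, hc, rfl⟩ := Submodule.mem_sup.1 hx₀
    have hcM : c ∈ M := by
      have := M.sub_mem hx (hPM hp)
      simpa using this
    have : c ∈ M ⊓ C := ⟨hcM, hc⟩
    rw [hN, Submodule.mem_bot] at this
    rw [this, add_zero]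
    exact hp
  exact fun x hx h => hMP ⟨hx, h⟩

/-- The case of an irreducible action. -/
theorem irreducible_case {T₀ : Submodule K V} (h₀ : StabOp R T₀)
    (hirr : IrrGp ρ T₀) (hne : ∃ a ∈ R, ∃ x ∈ T₀, a x ≠ 0) :
    ∃ r ∈ R, ∀ x ∈ T₀, r x = x := by
  apply local_global hmul hnorm h₀ hirr.2.1
  · intro M hM hMG
    by_cases h0 : M = ⊥
    · exact ⟨T₀, le_rfl, hirr.2.1, by rw [h0, bot_inf_eq], by rw [h0, bot_sup_eq]⟩
    · have := hirr.2.2 M hM hMG h0
      exact ⟨⊥, bot_le, fun g x hx => by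
        rw [(Submodule.mem_bot K).1 hx, map_zero]; exact Submodule.zero_mem _,
        by rw [inf_bot_eq], by rw [sup_bot_eq, this]⟩
  · intro U hU hUirr
    have hUT : U = T₀ := hirr.2.2 U hU hUirr.2.1 hUirr.1
    subst hUT
    have hle : opSpan R U ≤ U := by
      apply Submodule.span_le.2
      rintro _ ⟨a, ha, x, hx, rfl⟩
      exact h₀ a ha x hx
    have hG : StabGp ρ (opSpan R U) := by
      intro g x hx
      induction hx using Submodule.span_induction with
      | mem x hx =>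
        obtain ⟨a, ha, y, hy, rfl⟩ := hx
        rw [← conj_apply hmul hnorm]
        exact Submodule.subset_span ⟨_, hnorm g a ha, _, hirr.2.1 g y hy, rfl⟩
      | zero => rw [map_zero]; exact Submodule.zero_mem _
      | add x y _ _ hx hy => rw [map_add]; exact Submodule.add_mem _ hx hy
      | smul c x _ hx => rw [map_smul]; exact Submodule.smul_mem _ _ hx
    have h0 : opSpan R U ≠ ⊥ := by
      obtain ⟨a, ha, x, hx, hax⟩ := hne
      intro h
      apply hax
      rw [← Submodule.mem_bot K, ← h]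
      exact Submodule.subset_span ⟨a, ha, x, hx, rfl⟩
    exact (hirr.2.2 _ hle hG h0).ge

end basic

end Pool.Agent.U724B
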