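import Pool.Agent.H914R2.KCorr
import Pool.Agent.U724B.LG

/-!
# Group actions on the cohomology compatible with algebraic correspondences: definitions
-/

open CategoryTheory AlgebraicGeometry

universe u v w

namespace Pool.Agent.U724B

open Pool.Agent.H914 VarClass Obj WeilCohomology

variable {k : Type u} [Field k] {𝒱 : VarClass k} {ops : CycleOps 𝒱}

/-- A linear action `ρ` of the group `Γ` on the cohomology of `X` which has the formal properties
of the action of a Galois group (for `X`, `D` defined over a smaller field; Tate twists are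
suppressed) or of a group of automorphisms of `X` which fix the class of `D`: it respects the
degrees, it conjugates algebraic correspondences into linear combinations of algebraic
correspondences, and it commutes up to scalars with the product with the class of `D`. -/
structure IsCorrAction (W : WeilCohomology.{u, v} ops) (X : 𝒱.Obj) (D : X.Cycles) {Γ : Type w}
    [Group Γ] (ρ : Γ →* (W.H X ≃ₗ[W.K] W.H X)) : Prop where
  gr_mem : ∀ g i, ∀ x ∈ W.gr X i, ρ g x ∈ W.gr X i
  corr_mem : ∀ g (p : ℕ) (z : (X.prod X).Cycles), (X.prod X).IsCyc p z →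
    (ρ g).toLinearMap ∘ₗ W.corr (W.cl _ z) ∘ₗ (ρ g⁻¹).toLinearMap ∈
      KOp W X X ((p : ℤ) - X.dim)
  lef : ∀ g, ∃ s : W.K, ∀ x, ρ g (W.cl X D * x) = s • (W.cl X D * ρ g x)

/-- The operator `ξ ^ c`, `ξ` the class of `D`, has on `H^(n + c)(X)` an inverse on the right which
is a linear combination of algebraic correspondences (of codimension `n - c` on `X × X`). -/
def HasInverse (W : WeilCohomology.{u, v} ops) (X : 𝒱.Obj) (D : X.Cycles) (c : ℕ) : Prop :=
  ∃ u ∈ KOp W X X (-c), ∀ x ∈ W.gr X (X.dim + c), W.cl X D ^ c * u x = x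

/-- For each class `x` in `H^(n + c)(X)` there is a linear combination `u` of algebraic
correspondences, which may depend on `x`, with `ξ ^ c (u x) = x`. -/
def HasLocalInverses (W : WeilCohomology.{u, v} ops) (X : 𝒱.Obj) (D : X.Cycles) (c : ℕ) : Prop :=
  ∀ x ∈ W.gr X (X.dim + c), ∃ u ∈ KOp W X X (-c), W.cl X D ^ c * u x = x

/-- The subspace spanned by the classes `ξ ^ c (u x)`, `x` in `U` and `u` a linear combination of
algebraic correspondences of codimension `n - c` on `X × X`. -/
def lefSpan (W : WeilCohomology.{u, v} ops) (X : 𝒱.Obj) (D : X.Cycles) (c : ℕ)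
    (U : Submodule W.K (W.H X)) : Submodule W.K (W.H X) :=
  Submodule.span W.K {y | ∃ u ∈ KOp W X X (-c), ∃ x ∈ U, W.cl X D ^ c * u x = y}

end Pool.Agent.U724B
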