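import Mathlib

/-!
# The weighted dimension of a graded subspace
-/

open Finset Module

namespace Pool.Agent.U724B

variable {K V : Type*} [Field K] [AddCommGroup V] [Module K V]

/-- The sum of the numbers `(i - n) * dim M i` over `i ≤ 2 n`. -/
noncomputable def exc (n : ℕ) (M : ℕ → Submodule K V) : ℤ :=
  ∑ i ∈ range (2 * n + 1), ((i : ℤ) - n) * (finrank K (M i) : ℤ)

/-- The total dimension in degrees at most `2 n`. -/
noncomputable def totdim (n : ℕ) (M : ℕ → Submodule K V) : ℕ :=
  ∑ i ∈ range (2 * n + 1), finrank K (M i)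

lemma exc_bot (n : ℕ) : exc n (⊥ : ℕ → Submodule K V) = 0 := by
  simp [exc]

lemma reflect (n : ℕ) (f : ℕ → ℤ) :
    ∑ i ∈ range (2 * n + 1), f (2 * n - i) = ∑ i ∈ range (2 * n + 1), f i := by
  have := Finset.sum_range_reflect f (2 * n + 1)
  rw [← this]
  apply Finset.sum_congr rfl
  intro i _
  congr 1

lemma exc_two (n : ℕ) (M : ℕ → Submodule K V) :
    2 * exc n M = ∑ i ∈ range (2 * n + 1),
      ((i : ℤ) - n) * ((finrank K (M i) : ℤ) - finrank K (M (2 * n - i))) := by
  have h : exc n M = ∑ i ∈ range (2 * n + 1),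
      -(((i : ℤ) - n) * (finrank K (M (2 * n - i)) : ℤ)) := by
    rw [exc, ← reflect]
    apply Finset.sum_congr rfl
    intro i hi
    rw [Finset.mem_range] at hi
    have : ((2 * n - i : ℕ) : ℤ) = 2 * n - i := by omega
    rw [this]; ring
  calc 2 * exc n M = exc n M + exc n M := by ring
    _ = ∑ i ∈ range (2 * n + 1), (((i : ℤ) - n) * (finrank K (M i) : ℤ) +
          -(((i : ℤ) - n) * (finrank K (M (2 * n - i)) : ℤ))) := by
        conv_lhs => rw [h]
        rw [Finset.sum_add_distrib]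
        congr 1
        rw [← h, exc]
    _ = _ := by
        apply Finset.sum_congr rfl
        intro i _
        ring

lemma exc_nonneg {n : ℕ} {M : ℕ → Submodule K V}
    (h : ∀ i ≤ n, finrank K (M i) ≤ finrank K (M (2 * n - i))) : 0 ≤ exc n M := by
  have h2 : 0 ≤ 2 * exc n M := by
    rw [exc_two]
    apply Finset.sum_nonneg
    intro i hi
    rw [Finset.mem_range] at hi
    rcases le_total i n with hin | hin
    · have := h i hin
      apply mul_nonneg_of_nonpos_of_nonpos <;> omega
    · have := h (2 * n - i) (by omega)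
      rw [show 2 * n - (2 * n - i) = i by omega] at this
      apply mul_nonneg <;> omega
  omega

lemma exc_zero_iff {n : ℕ} {M : ℕ → Submodule K V}
    (h : ∀ i ≤ n, finrank K (M i) ≤ finrank K (M (2 * n - i))) :
    exc n M ≤ 0 ↔ ∀ i ≤ n, finrank K (M i) = finrank K (M (2 * n - i)) := by
  have hnn : ∀ i ∈ range (2 * n + 1),
      0 ≤ ((i : ℤ) - n) * ((finrank K (M i) : ℤ) - finrank K (M (2 * n - i))) := by
    intro i hi
    rw [Finset.mem_range] at hi
    rcases le_total i n with hin | hin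
    · have := h i hin
      apply mul_nonneg_of_nonpos_of_nonpos <;> omega
    · have := h (2 * n - i) (by omega)
      rw [show 2 * n - (2 * n - i) = i by omega] at this
      apply mul_nonneg <;> omega
  constructor
  · intro h0 i hi
    have h2 : ∑ i ∈ range (2 * n + 1),
        ((i : ℤ) - n) * ((finrank K (M i) : ℤ) - finrank K (M (2 * n - i))) = 0 := by
      apply le_antisymm
      · rw [← exc_two]; omega
      · exact Finset.sum_nonneg hnn
    rw [Finset.sum_eq_zero_iff_of_nonneg hnn] at h2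
    rcases eq_or_lt_of_le hi with rfl | hlt
    · rw [show 2 * i - i = i by omega]
    · have h3 := h2 i (by rw [Finset.mem_range]; omega)
      rcases mul_eq_zero.1 h3 with h4 | h4 <;> omega
  · intro h0
    have h2 : 2 * exc n M = 0 := by
      rw [exc_two]
      apply Finset.sum_eq_zero
      intro i hi
      rw [Finset.mem_range] at hi
      rcases le_total i n with hin | hin
      · rw [h0 i hin]; ring
      · have := h0 (2 * n - i) (by omega)
        rw [show 2 * n - (2 * n - i) = i by omega] at this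
        rw [this]; ring
    omega

section fd

variable [FiniteDimensional K V]

lemma exc_sup_inf (n : ℕ) (M M' : ℕ → Submodule K V) :
    exc n (M ⊔ M') + exc n (M ⊓ M') = exc n M + exc n M' := by
  rw [exc, exc, exc, exc, ← Finset.sum_add_distrib, ← Finset.sum_add_distrib]
  apply Finset.sum_congr rfl
  intro i _
  have := Submodule.finrank_sup_add_finrank_inf_eq (M i) (M' i)
  rw [Pi.sup_apply, Pi.inf_apply, ← mul_add, ← mul_add]
  congr 1
  exact_mod_cast this

lemma exc_le (n : ℕ) (M : ℕ → Submodule K V) :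
    exc n M ≤ ∑ _i ∈ range (2 * n + 1), (n : ℤ) * (finrank K V : ℤ) := by
  apply Finset.sum_le_sum
  intro i hi
  rw [Finset.mem_range] at hi
  have h1 : (finrank K (M i) : ℤ) ≤ finrank K V := by exact_mod_cast Submodule.finrank_le (M i)
  have h2 : (0 : ℤ) ≤ finrank K (M i) := by positivity
  calc ((i : ℤ) - n) * (finrank K (M i) : ℤ) ≤ n * (finrank K (M i) : ℤ) :=
        mul_le_mul_of_nonneg_right (by omega) h2
    _ ≤ _ := mul_le_mul_of_nonneg_left h1 (by positivity)

lemma eq_of_le_of_totdim {n : ℕ} {M M' : ℕ → Submodule K V} (hle : M ≤ M')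
    (h : totdim n M' ≤ totdim n M) (hb : ∀ i, 2 * n < i → M' i = ⊥) : M = M' := by
  have hle' : ∀ i ∈ range (2 * n + 1), finrank K (M i) ≤ finrank K (M' i) :=
    fun i _ => Submodule.finrank_mono (hle i)
  have heq : ∀ i ∈ range (2 * n + 1), finrank K (M i) = finrank K (M' i) :=
    (Finset.sum_eq_sum_iff_of_le hle').1 (le_antisymm (Finset.sum_le_sum hle') h)
  funext i
  by_cases hi : i ≤ 2 * n
  · exact Submodule.eq_of_le_of_finrank_eq (hle i) (heq i (by rw [Finset.mem_range]; omega))
  · have h1 := hb i (by omega)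
    have h2 := hle i
    rw [h1] at h2 ⊢
    exact eq_bot_iff.2 h2

/-- Among the members of maximal weighted dimension of a lattice of graded subspaces there is a
smallest one. -/
theorem exists_smallest (n : ℕ) {P : (ℕ → Submodule K V) → Prop} (hbot : P ⊥)
    (hinf : ∀ M M', P M → P M' → P (M ⊓ M')) (hsup : ∀ M M', P M → P M' → P (M ⊔ M'))
    (hb : ∀ M, P M → ∀ i, 2 * n < i → M i = ⊥) :
    ∃ N, P N ∧ (∀ M, P M → exc n M ≤ exc n N) ∧ ∀ M, P M → exc n N ≤ exc n M → N ≤ M := by
  obtain ⟨e, ⟨M₀, hM₀, he⟩, hmax⟩ := Int.exists_greatest_of_bdd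
    (P := fun e => ∃ M, P M ∧ exc n M = e)
    ⟨_, fun z hz => by obtain ⟨M, _, rfl⟩ := hz; exact exc_le n M⟩ ⟨0, ⊥, hbot, exc_bot n⟩
  classical
  have hex : ∃ d, ∃ M, P M ∧ exc n M = e ∧ totdim n M = d := ⟨_, M₀, hM₀, he, rfl⟩
  obtain ⟨N, hN, hNe, hNd⟩ := Nat.find_spec hex
  refine ⟨N, hN, fun M hM => hNe ▸ hmax _ ⟨M, hM, rfl⟩, fun M hM hle => ?_⟩
  have hMe : exc n M = e := le_antisymm (hmax _ ⟨M, hM, rfl⟩) (hNe ▸ hle)
  have h1 := exc_sup_inf n N M
  have h2 : exc n (N ⊔ M) ≤ e := hmax _ ⟨_, hsup _ _ hN hM, rfl⟩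
  have h3 : exc n (N ⊓ M) ≤ e := hmax _ ⟨_, hinf _ _ hN hM, rfl⟩
  have h4 : exc n (N ⊓ M) = e := by omega
  have h5 : totdim n N ≤ totdim n (N ⊓ M) := by
    rw [hNd]
    exact Nat.find_min' hex ⟨_, hinf _ _ hN hM, h4, rfl⟩
  have h6 : N ⊓ M = N := eq_of_le_of_totdim inf_le_left h5 (hb N hN)
  rw [← h6]
  exact inf_le_right

end fd

end Pool.Agent.U724B
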