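import Pool.Agent.U724B.Defs
import Pool.Agent.U724B.Exc

/-!
# Graded subspaces stable under algebraic correspondences: definitions
-/

open CategoryTheory AlgebraicGeometry

universe u v w

namespace Pool.Agent.U724B

open Pool.Agent.H914 VarClass Obj WeilCohomology

variable {k : Type u} [Field k] {𝒱 : VarClass k} {ops : CycleOps 𝒱}

/-- A graded subspace of the cohomology of `X`, given by its parts `M i` in the `H^i(X)`, which is
stable under all algebraic correspondences from `X` to `X`, of all degrees. -/
structure IsCorrStable (W : WeilCohomology.{u, v} ops) (X : 𝒱.Obj)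
    (M : ℕ → Submodule W.K (W.H X)) : Prop where
  le : ∀ i, M i ≤ W.gr X i
  corr_mem : ∀ {p i j : ℕ} {z : (X.prod X).Cycles}, (X.prod X).IsCyc p z →
    j + 2 * X.dim = i + 2 * p → ∀ x ∈ M i, W.corr (W.cl _ z) x ∈ M j

/-- The sum of the numbers `(i - n) * dim M i` over all degrees `i`, where `n = dim X`. -/
noncomputable def excess (W : WeilCohomology.{u, v} ops) (X : 𝒱.Obj)
    (M : ℕ → Submodule W.K (W.H X)) : ℤ := exc X.dim M

/-- The product of any two classes in `M` has trace zero. -/
def IsIsotropic (W : WeilCohomology.{u, v} ops) (X : 𝒱.Obj)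
    (M : ℕ → Submodule W.K (W.H X)) : Prop :=
  ∀ i j, ∀ x ∈ M i, ∀ y ∈ M j, W.tr X (x * y) = 0

/-- `M` is contained in `M'`, different from `M'`, and there is no graded subspace stable under the
algebraic correspondences strictly between them: `M' / M` is a composition factor of the graded
module `H(X)` over the algebra of algebraic correspondences. -/
structure IsSimpleStep (W : WeilCohomology.{u, v} ops) (X : 𝒱.Obj)
    (M M' : ℕ → Submodule W.K (W.H X)) : Prop where
  left : IsCorrStable W X M
  right : IsCorrStable W X M'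
  lt : M < M'
  simple : ∀ M'', IsCorrStable W X M'' → M ≤ M'' → M'' ≤ M' → M'' = M ∨ M'' = M'

/-- The algebraic correspondence given by `z` is the inverse of
`ξ ^ (n - i) : H^i(X) → H^(2n - i)(X)`, `ξ` the class of `D`. -/
def InducesInverse (W : WeilCohomology.{u, v} ops) (X : 𝒱.Obj) (D : X.Cycles) (i : ℕ)
    (z : (X.prod X).Cycles) : Prop :=
  (∀ x ∈ W.gr X i, W.corr (W.cl _ z) (W.cl X D ^ (X.dim - i) * x) = x) ∧
    ∀ y ∈ W.gr X (2 * X.dim - i), W.cl X D ^ (X.dim - i) * W.corr (W.cl _ z) y = y

end Pool.Agent.U724B
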