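import Pool.Agent.H914R2.KDefs

/-!
# The cohomology of a variety as a graded module over the algebraic correspondences: definitions
-/

open CategoryTheory AlgebraicGeometry

universe u v w

namespace Pool.Agent.U724B

open Pool.Agent.H914 VarClass Obj WeilCohomology

/-- A vector space with subspaces `gr i` (its parts of degree `i`), a number `n`, a map `L`, a
pairing, and for each integer `d` a set of maps, called the cycles of degree `d`. (In the use made
here, these are given by the cohomology of a variety, see `cohMod`.) -/
structure CohMod (K : Type v) [Field K] where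
  /-- the underlying vector space -/
  V : Type v
  [grp : AddCommGroup V]
  [mod : Module K V]
  /-- the parts of degree `i` -/
  gr : ℕ → Submodule K V
  /-- the dimension -/
  n : ℕ
  /-- the Lefschetz operator -/
  L : V → V
  /-- the pairing -/
  pair : V → V → K
  /-- the cycles of degree `d` -/
  Cyc : ℤ → (V → V) → Prop

attribute [instance] CohMod.grp CohMod.mod

section

variable {k : Type u} [Field k] {𝒱 : VarClass k} {ops : CycleOps 𝒱}

/-- The multiplication by the class of `D`. -/
noncomputable def mulClass (W : WeilCohomology.{u, v} ops) (X : 𝒱.Obj) (D : X.Cycles) (x : W.H X) : W.H X :=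
  W.cl X D * x

/-- The trace of the product. -/
def trMul (W : WeilCohomology.{u, v} ops) (X : 𝒱.Obj) (x y : W.H X) : W.K := W.tr X (x * y)

/-- The action of the cycle `z` on `X × X` on the cohomology of `X`. -/
noncomputable def cycAct (W : WeilCohomology.{u, v} ops) (X : 𝒱.Obj) (z : (X.prod X).Cycles)
    (x : W.H X) : W.H X := W.corr (W.cl (X.prod X) z) x

/-- The map `u` is the action of an algebraic cycle with rational coefficients on `X × X`, of
codimension `dim X + d`. -/
def ActsAsCycle (W : WeilCohomology.{u, v} ops) (X : 𝒱.Obj) (d : ℤ) (u : W.H X → W.H X) : Prop :=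
  ∃ p : ℕ, (p : ℤ) = X.dim + d ∧ ∃ z, (X.prod X).IsCyc p z ∧ ∀ x, cycAct W X z x = u x

/-- The additive group `H(X)`. -/
abbrev addH (W : WeilCohomology.{u, v} ops) (X : 𝒱.Obj) : AddCommGroup (W.H X) := inferInstance

/-- The vector space `H(X)`. -/
abbrev modH (W : WeilCohomology.{u, v} ops) (X : 𝒱.Obj) : Module W.K (W.H X) := inferInstance

/-- The cohomology of `X`, with the multiplication by the class of `D`, the pairing `tr (x y)`, and
the actions of the algebraic cycles on `X × X` with rational coefficients; the degree of a cycle of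
codimension `p` is `p - dim X`. -/
noncomputable abbrev cohMod (W : WeilCohomology.{u, v} ops) (X : 𝒱.Obj) (D : X.Cycles) : CohMod W.K :=
  @CohMod.mk W.K _ (W.H X) (addH W X) (modH W X) (W.gr X) X.dim (mulClass W X D) (trMul W X)
    (ActsAsCycle W X)

end

namespace CohMod

variable {K : Type v} [Field K] (S : CohMod K)

/-- The map `u` is the inverse of `L ^ (n - i)` from the part of degree `i` to the part of degree
`2 n - i`. -/
def Inverts (i : ℕ) (u : S.V → S.V) : Prop :=
  (∀ x ∈ S.gr i, u (S.L^[S.n - i] x) = x) ∧ ∀ y ∈ S.gr (2 * S.n - i), S.L^[S.n - i] (u y) = y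

/-- The `K`-linear combinations of cycles of degree `d`: the correspondences of degree `d`. -/
def Op (d : ℤ) (u : S.V → S.V) : Prop := u ∈ Submodule.span K {u | S.Cyc d u}

/-- The map `L ^ c` has on the part of degree `n + c` an inverse on the right which is a
correspondence. -/
def HasInverse (c : ℕ) : Prop := ∃ u, S.Op (-c) u ∧ ∀ x ∈ S.gr (S.n + c), S.L^[c] (u x) = x

/-- For each `x` of degree `n + c` there is a correspondence `u`, which may depend on `x`, with
`L ^ c (u x) = x`. -/
def HasLocalInverses (c : ℕ) : Prop := ∀ x ∈ S.gr (S.n + c), ∃ u, S.Op (-c) u ∧ S.L^[c] (u x) = x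

/-- The span of the `L ^ c (u x)`, where `x` is in `U` and `u` is a correspondence of degree
`-c`. -/
def lefSpan (c : ℕ) (U : Submodule K S.V) : Submodule K S.V :=
  Submodule.span K {y | ∃ u x, S.Op (-c) u ∧ x ∈ U ∧ S.L^[c] (u x) = y}

/-- A linear action of the group `Γ` which has the formal properties of the action of a Galois
group (for a variety and a divisor defined over a smaller field; Tate twists are suppressed) or of a
group of automorphisms of the variety which fix the class of the divisor: it respects the degrees,
it conjugates cycles into correspondences, and it commutes up to scalars with `L`. -/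
structure Action (Γ : Type w) [Group Γ] where
  /-- the action -/
  app : Γ → S.V → S.V
  one : ∀ x, app 1 x = x
  mul : ∀ g h x, app (g * h) x = app g (app h x)
  add : ∀ g x y, app g (x + y) = app g x + app g y
  smul : ∀ (g : Γ) (a : K) (x : S.V), app g (a • x) = a • app g x
  gr_mem : ∀ g i, ∀ x ∈ S.gr i, app g x ∈ S.gr i
  conj : ∀ g d u, S.Cyc d u → S.Op d (fun x => app g (u (app g⁻¹ x)))
  lef : ∀ g, ∃ s : K, ∀ x, app g (S.L x) = s • S.L (app g x)

variable {S} {Γ : Type w} [Group Γ]

/-- The subspace `U` is stable under `Γ`. -/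
def Action.Stable (A : S.Action Γ) (U : Submodule K S.V) : Prop := ∀ g, ∀ x ∈ U, A.app g x ∈ U

/-- The subspace `U` is stable, different from zero, and contains no other stable subspace which is
different from zero. -/
def Action.Irreducible (A : S.Action Γ) (U : Submodule K S.V) : Prop :=
  U ≠ ⊥ ∧ A.Stable U ∧ ∀ U' ≤ U, A.Stable U' → U' ≠ ⊥ → U' = U

/-- Every stable subspace of `T` has a stable complement in `T`. -/
def Action.Semisimple (A : S.Action Γ) (T : Submodule K S.V) : Prop :=
  ∀ M ≤ T, A.Stable M → ∃ C ≤ T, A.Stable C ∧ M ⊓ C = ⊥ ∧ M ⊔ C = T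

variable (S)

/-- A graded submodule: a graded subspace, given by its parts `M i`, which is stable under all
cycles of all degrees. -/
structure IsSub (M : ℕ → Submodule K S.V) : Prop where
  le : ∀ i, M i ≤ S.gr i
  mem : ∀ (d : ℤ) (i j : ℕ) (u : S.V → S.V), S.Cyc d u → (j : ℤ) = i + 2 * d → ∀ x ∈ M i, u x ∈ M j

/-- The sum of the numbers `(i - n) * dim M i` over `i ≤ 2 n`. -/
noncomputable def excess (M : ℕ → Submodule K S.V) : ℤ :=
  ∑ i ∈ Finset.range (2 * S.n + 1), ((i : ℤ) - S.n) * (Module.finrank K (M i) : ℤ)

/-- The pairing is zero on `M`. -/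
def IsIsotropic (M : ℕ → Submodule K S.V) : Prop :=
  ∀ i j, ∀ x ∈ M i, ∀ y ∈ M j, S.pair x y = 0

/-- `M' / M` is a composition factor: `M < M'`, and there is no graded submodule strictly
between them. -/
structure IsFactor (M M' : ℕ → Submodule K S.V) : Prop where
  left : S.IsSub M
  right : S.IsSub M'
  lt : M < M'
  simple : ∀ M'', S.IsSub M'' → M ≤ M'' → M'' ≤ M' → M'' = M ∨ M'' = M'

/-- If the part of degree `n + c` is semisimple under a group `Γ`, the map `L ^ c` has an inverse
there which is a correspondence if and only if every irreducible subspace `U` of the part of degree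
`n + c` is contained in the span of the `L ^ c (u x)`, `x` in `U`, `u` a correspondence of degree
`-c`. -/
def SemisimpleRule (c : ℕ) : Prop :=
  ∀ (Γ : Type w) [Group Γ] (A : S.Action Γ), A.Semisimple (S.gr (S.n + c)) →
    (S.HasInverse c ↔ ∀ U ≤ S.gr (S.n + c), A.Irreducible U → U ≤ S.lefSpan c U)

/-- If the part of degree `n + c` is irreducible under a group `Γ`, the map `L ^ c` has an inverse
there which is a correspondence if and only if there is one cycle of degree `-c` which does not act
as zero on the part of degree `n + c`. -/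
def IrreducibleRule (c : ℕ) : Prop :=
  ∀ (Γ : Type w) [Group Γ] (A : S.Action Γ), A.Irreducible (S.gr (S.n + c)) →
    (S.HasInverse c ↔ ∃ u, S.Cyc (-c) u ∧ ∃ x ∈ S.gr (S.n + c), u x ≠ 0)

/-- `N` is a graded submodule of maximal excess which is contained in all graded submodules of
maximal excess. -/
def IsDestabilizing (N : ℕ → Submodule K S.V) : Prop :=
  S.IsSub N ∧ (∀ M, S.IsSub M → S.excess M ≤ S.excess N) ∧
    ∀ M, S.IsSub M → S.excess N ≤ S.excess M → N ≤ M

variable {S}

/-- Every totally isotropic graded submodule which is stable under `Γ` has a complement which is a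
graded submodule. -/
def Action.Complements (A : S.Action Γ) : Prop :=
  ∀ M, S.IsSub M → S.IsIsotropic M → (∀ i, A.Stable (M i)) →
    ∃ C, S.IsSub C ∧ M ⊓ C = ⊥ ∧ M ⊔ C = S.gr

/-- For `i ≤ n`, no stable subspace of the part of degree `i` different from zero is isotropic for
the form `pair x (L ^ (n - i) y)`. -/
def Action.Anisotropic (A : S.Action Γ) : Prop :=
  ∀ i ≤ S.n, ∀ U ≤ S.gr i, A.Stable U →
    (∀ x ∈ U, ∀ y ∈ U, S.pair x (S.L^[S.n - i] y) = 0) → U = ⊥

/-- For `i ≤ n`, on every irreducible subspace of the part of degree `2 n - i` some cycle of degree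
`-(n - i)` does not act as zero. -/
def Action.Detects (A : S.Action Γ) : Prop :=
  ∀ i ≤ S.n, ∀ U ≤ S.gr (2 * S.n - i), A.Irreducible U →
    ∃ u, S.Cyc ((i : ℤ) - S.n) u ∧ ∃ x ∈ U, u x ≠ 0

end CohMod

/-- For each `i ≤ n = dim X`, one cycle of codimension `i` on `X × X` with rational coefficients
induces the inverse of `ξ ^ (n - i) : H^i(X) → H^(2n - i)(X)` (which is bijective), `ξ` the class of
`D`, for all Weil cohomology theories with the Betti numbers of `W`. -/
def OneCycleForAll {k : Type u} [Field k] {𝒱 : VarClass k} {ops : CycleOps 𝒱}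
    (W : WeilCohomology.{u, v} ops) (X : 𝒱.Obj) (D : X.Cycles) : Prop :=
  ∀ i ≤ X.dim, ∃ z, (X.prod X).IsCyc i z ∧
    ∀ W' : WeilCohomology.{u, v} ops, (∀ j, W'.betti X j = W.betti X j) →
      HardLefschetz W' X D ∧ (cohMod W' X D).Inverts i (cycAct W' X z)

end Pool.Agent.U724B
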